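import Pool.Agent.Run7.h932.RG.Asm2
import Pool.Agent.Y263.CF.Local
import Pool.Agent.Y528.CF.K

set_option autoImplicit false

namespace Run7.h932.RG

open Finset Classical Filter

/-- events -/
theorem event_eq {n : ℕ} (p : Fin n → Fin n → ℝ) (P : SimpleGraph (Fin n) → Prop) :
    ∑ G ∈ univ.filter (fun G => P G), WG p G = ∑ ω ∈ univ.filter (fun ω => P (gr ω)), mu p ω := by
  have h := (tr n).2.2 p (fun G => if P G then 1 else 0)
  rw [Finset.sum_filter, Finset.sum_filter]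
  simp only [mul_ite, mul_one, mul_zero] at h
  exact h.symm

theorem event_le {n : ℕ} (p : Fin n → Fin n → ℝ) (P : SimpleGraph (Fin n) → Prop) (b : ℝ)
    {i1 : DecidablePred P} {i2 : DecidablePred fun ω : Fin n → Fin n → Bool => P (gr ω)}
    (h : ∑ ω ∈ @Finset.filter _ (fun ω => P (gr ω)) i2 univ, mu p ω ≤ b) :
    ∑ G ∈ @Finset.filter _ P i1 univ, WG p G ≤ b := by
  refine le_trans (le_of_eq ?_) h
  have e := event_eq p P
  convert e using 2
  · ext G; simp only [mem_filter]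
  · ext G; simp only [mem_filter]

theorem WG_nonneg {n : ℕ} {p : Fin n → Fin n → ℝ} (h0 : ∀ x y, 0 ≤ p x y)
    (h1 : ∀ x y, p x y ≤ 1) (G : SimpleGraph (Fin n)) : 0 ≤ WG p G := by
  unfold WG
  refine Finset.prod_nonneg fun y _ => Finset.prod_nonneg fun x _ => ?_
  split_ifs
  · exact h0 x y
  · linarith [h1 x y]
  · norm_num

/-- the main theorem for graphs -/
theorem main_graph (ε η c γ K : ℝ) (hε : 0 < ε) (hη : 0 < η) (hη1 : η < 1) (hc : 0 < c)
    (hc1 : c ≤ 1) (hγ : 0 < γ) (hK : 0 < K) :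
    ∃ Δ₀ : ℕ, ∀ Δ q : ℕ, Δ₀ ≤ Δ → (1 / 2 + ε) * (Δ / Real.log Δ) ≤ q →
    ∃ n₀ : ℕ, ∀ n : ℕ, n₀ ≤ n → ∀ p : Fin n → Fin n → ℝ, Hyp2 p c γ Δ →
      ∑ G ∈ univ.filter (fun G => ¬ Bound G q η), WG p G ≤ (n : ℝ) ^ (-K) := by
  obtain ⟨Δ₀, h⟩ := fin2 ε η c γ K hε hη hη1 hc hc1 hγ hK
  refine ⟨Δ₀, fun Δ q hΔ hq => ?_⟩
  obtain ⟨n₀, h⟩ := h Δ q hΔ hq
  refine ⟨n₀, fun n hn p hp => ?_⟩
  exact event_le p (fun G => ¬ Bound G q η) _ (h n hn p hp)

/-- for `c = 7/8` there is no condition on small sets -/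
theorem dense_hyp : ∃ n₀ : ℕ, ∀ n : ℕ, n₀ ≤ n → ∀ (p : Fin n → Fin n → ℝ) (U : Finset (Fin n)),
    (∀ x y, p x y ≤ (n : ℝ) ^ (-(7 / 8) : ℝ)) →
    (U.card : ℝ) ≤ 2 * (n : ℝ) ^ (1 - 3 * (7 / 8) / 20 : ℝ) →
    ∑ x ∈ U, ∑ y ∈ U, p x y ≤ (n : ℝ) ^ (-(1 / 200) : ℝ) * U.card := by
  have t : Tendsto (fun n : ℕ => (n : ℝ) ^ (1 / 800 : ℝ)) atTop atTop :=
    (tendsto_rpow_atTop (by norm_num)).comp tendsto_natCast_atTop_atTop
  obtain ⟨n₁, hn₁⟩ := eventually_atTop.1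
    ((t.eventually_ge_atTop 2).and (eventually_ge_atTop 1))
  refine ⟨n₁, fun n hn p U hp hU => ?_⟩
  obtain ⟨a1, a2⟩ := hn₁ n hn
  have hn0 : (0 : ℝ) < n := by exact_mod_cast a2
  calc ∑ x ∈ U, ∑ y ∈ U, p x y ≤ ∑ x ∈ U, ∑ y ∈ U, (n : ℝ) ^ (-(7 / 8) : ℝ) :=
        Finset.sum_le_sum fun x _ => Finset.sum_le_sum fun y _ => hp x y
    _ = ((U.card : ℝ) * (n : ℝ) ^ (-(7 / 8) : ℝ)) * U.card := by
        simp only [Finset.sum_const, nsmul_eq_mul]; ring
    _ ≤ (n : ℝ) ^ (-(1 / 200) : ℝ) * U.card := by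
        refine mul_le_mul_of_nonneg_right ?_ (Nat.cast_nonneg _)
        calc (U.card : ℝ) * (n : ℝ) ^ (-(7 / 8) : ℝ)
            ≤ (2 * (n : ℝ) ^ (1 - 3 * (7 / 8) / 20 : ℝ)) * (n : ℝ) ^ (-(7 / 8) : ℝ) :=
              mul_le_mul_of_nonneg_right hU (by positivity)
          _ ≤ ((n : ℝ) ^ (1 / 800 : ℝ) * (n : ℝ) ^ (1 - 3 * (7 / 8) / 20 : ℝ)) *
                (n : ℝ) ^ (-(7 / 8) : ℝ) := by gcongr
          _ = (n : ℝ) ^ (-(1 / 200) : ℝ) := by
              rw [← Real.rpow_add hn0, ← Real.rpow_add hn0]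
              congr 1
              norm_num

/-- the known range: `q ≥ 10 Δ` -/
theorem large_q (η : ℝ) (hη : 0 < η) (hη1 : η < 1) (V : Type) [Finite V] (G : SimpleGraph V)
    (hG : G.CliqueFree 3) (Δ q : ℕ) (hd : ∀ v, Nat.card (G.neighborSet v) ≤ Δ)
    (hΔq : 10 * Δ ≤ q) (hq : 1 / (η * (1 - η)) ≤ q) (hq2 : 2 ≤ q) : Bound G q η := by
  have := Fintype.ofFinite V
  have hη2 : 0 < 1 - η := by linarith
  have hq0 : (0 : ℝ) < q := by
    have : (2 : ℝ) ≤ q := by exact_mod_cast hq2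
    linarith
  have hΔqR : 10 * (Δ : ℝ) ≤ q := by exact_mod_cast hΔq
  have h := Y263.CF.proof_LOCAL Pool.Agent.Y528.CF.proof_K V G hG q η hq2 hη.le hη1 ?_
  · unfold Bound
    rw [Nat.card_eq_fintype_card (α := V)]
    exact h
  · intro v
    have hinv : ∀ u, ((1 - 1 / (q : ℝ)) ^ Y263.CF.dg G u)⁻¹ ≤ 10 / 9 := by
      intro u
      have hdu : (Y263.CF.dg G u : ℝ) ≤ Δ := by exact_mod_cast hd u
      have h1q : 1 / (q : ℝ) ≤ 1 := by
        rw [div_le_one hq0]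
        have : (2 : ℝ) ≤ q := by exact_mod_cast hq2
        linarith
      have hb := one_add_mul_le_pow (a := -(1 / (q : ℝ))) (by linarith) (Y263.CF.dg G u)
      have h2 : (9 / 10 : ℝ) ≤ (1 - 1 / (q : ℝ)) ^ Y263.CF.dg G u := by
        have e : 1 + (Y263.CF.dg G u : ℝ) * -(1 / (q : ℝ)) = 1 - (Y263.CF.dg G u : ℝ) / q := by
          ring
        rw [e] at hb
        have h3 : (Y263.CF.dg G u : ℝ) / q ≤ 1 / 10 := by
          rw [div_le_iff₀ hq0]; linarith
        have e2 : (1 + -(1 / (q : ℝ))) = 1 - 1 / (q : ℝ) := by ring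
        rw [e2] at hb
        linarith
      have h4 := inv_anti₀ (by norm_num) h2
      refine h4.trans (by norm_num)
    have hsum : ∑ᶠ u ∈ G.neighborSet v, ((1 - 1 / (q : ℝ)) ^ Y263.CF.dg G u)⁻¹ ≤
        (Δ : ℝ) * (10 / 9) := by
      rw [finsum_mem_eq_finite_toFinset_sum _ (Set.toFinite _)]
      refine (Finset.sum_le_sum fun u _ => hinv u).trans ?_
      rw [Finset.sum_const, nsmul_eq_mul]
      refine mul_le_mul_of_nonneg_right ?_ (by norm_num)
      have h1 := hd v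
      rw [Nat.card_coe_set_eq, Set.ncard_eq_toFinset_card _ (Set.toFinite _)] at h1
      exact_mod_cast h1
    have hdv : (Y263.CF.dg G v : ℝ) / q ≤ 1 / 10 := by
      have : (Y263.CF.dg G v : ℝ) ≤ Δ := by exact_mod_cast hd v
      rw [div_le_iff₀ hq0]; linarith
    have hs0 : 0 ≤ ∑ᶠ u ∈ G.neighborSet v, ((1 - 1 / (q : ℝ)) ^ Y263.CF.dg G u)⁻¹ := by
      apply finsum_nonneg
      intro u
      apply finsum_nonneg
      intro _
      apply inv_nonneg.2
      apply pow_nonneg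
      rw [sub_nonneg, div_le_one hq0]
      have : (2 : ℝ) ≤ q := by exact_mod_cast hq2
      linarith
    have hd0 : (0 : ℝ) ≤ (Y263.CF.dg G v : ℝ) / q := by positivity
    calc (2 + (Y263.CF.dg G v : ℝ) / q) *
          (∑ᶠ u ∈ G.neighborSet v, ((1 - 1 / (q : ℝ)) ^ Y263.CF.dg G u)⁻¹)
        ≤ (21 / 10) * ((Δ : ℝ) * (10 / 9)) :=
          mul_le_mul (by linarith) hsum hs0 (by norm_num)
      _ ≤ q := by
          have : (0 : ℝ) ≤ Δ := by positivity
          linarith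
      _ ≤ η * (1 - η) * (q : ℝ) ^ 2 := by
          have h5 : 1 ≤ η * (1 - η) * q := by
            rw [div_le_iff₀ (by positivity)] at hq
            linarith
          calc (q : ℝ) = 1 * q := (one_mul _).symm
            _ ≤ (η * (1 - η) * q) * q := mul_le_mul_of_nonneg_right h5 hq0.le
            _ = _ := by ring

/-- The properties of the graph `G` without its vertices of degree above `Δ`. -/
def Fine {n : ℕ} (G : SimpleGraph (Fin n)) (m Δ : ℕ) (ε η : ℝ) : Prop :=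
  (G.induce {x | (G.neighborSet x).ncard ≤ Δ}).CliqueFree 3 ∧
  (∀ x, ((G.induce {x | (G.neighborSet x).ncard ≤ Δ}).neighborSet x).ncard ≤ Δ) ∧
  (n : ℝ) ≤ ({x | (G.neighborSet x).ncard ≤ Δ}.ncard : ℝ) + n / (Δ : ℝ) ^ 2 ∧
  m ≤ (G.induce {x | (G.neighborSet x).ncard ≤ Δ}).edgeSet.ncard + n ∧
  ∀ q : ℕ, (1 / 2 + ε) * (Δ / Real.log Δ) ≤ q →
    Bound (G.induce {x | (G.neighborSet x).ncard ≤ Δ}) q η

theorem filter_adj {n : ℕ} (G : SimpleGraph (Fin n)) (x : Fin n) :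
    (univ.filter fun y => G.Adj x y).card = (G.neighborSet x).ncard := by
  rw [Set.ncard_eq_toFinset_card']
  congr 1
  ext y
  simp

/-- deterministic part -/
theorem fine_of {n : ℕ} (G : SimpleGraph (Fin n)) (m Δ : ℕ) (ε η : ℝ) (hη : 0 < η)
    (hη1 : η < 1) (hG : G.CliqueFree 3) (hm : m = G.edgeSet.ncard) (hΔ2 : 2 ≤ Δ)
    (hΔη : 1 / (η * (1 - η)) ≤ Δ) (hq4 : ∀ q : ℕ, (1 / 2 + ε) * (Δ / Real.log Δ) ≤ q → 4 / η ≤ q)
    (h1 : ((univ.filter fun x => Δ < (univ.filter fun y => G.Adj x y).card).card : ℝ) ≤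
      n / (Δ : ℝ) ^ 2)
    (h2 : ((∑ x ∈ univ.filter fun x => Δ < (univ.filter fun y => G.Adj x y).card,
      (univ.filter fun y => G.Adj x y).card : ℕ) : ℝ) ≤ n)
    (h3 : ∀ q : ℕ, q < 10 * Δ → (1 / 2 + ε) * (Δ / Real.log Δ) ≤ q → Bound G q (η / 4)) :
    Fine G m Δ ε η := by
  set D : Set (Fin n) := {x | Δ < (univ.filter fun y => G.Adj x y).card} with hD
  have hDc : Dᶜ = {x | (G.neighborSet x).ncard ≤ Δ} := by
    ext x
    rw [hD]
    simp only [Set.mem_compl_iff, Set.mem_ofPred_eq, not_lt]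
    rw [filter_adj]
  have hDf : (univ.filter fun x => x ∈ D) =
      univ.filter fun x => Δ < (univ.filter fun y => G.Adj x y).card := by
    ext x
    simp [hD]
  have hDn : D.ncard = (univ.filter fun x => Δ < (univ.filter fun y => G.Adj x y).card).card := by
    rw [← hDf, Set.ncard_eq_toFinset_card']
    congr 1
    ext x
    simp
  have hΔR : (2 : ℝ) ≤ Δ := by exact_mod_cast hΔ2
  have h2' : ∑ x ∈ univ.filter (fun x => x ∈ D), (univ.filter fun y => G.Adj x y).card ≤ n := by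
    rw [hDf]
    exact_mod_cast h2
  have hDn2 : 2 * D.ncard ≤ n := by
    have hn : (0 : ℝ) ≤ n := by positivity
    have e1 : (n : ℝ) / (Δ : ℝ) ^ 2 ≤ n / 2 := by
      apply div_le_div_of_nonneg_left hn (by norm_num)
      nlinarith
    have e2 : (D.ncard : ℝ) ≤ n / 2 := by
      rw [hDn]; exact h1.trans e1
    have e3 : 2 * (D.ncard : ℝ) ≤ n := by linarith
    exact_mod_cast e3
  have hcf : (G.induce Dᶜ).CliqueFree 3 :=
    hG.comap ⟨(SimpleGraph.Embedding.induce (Dᶜ : Set (Fin n))).toCopy⟩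
  have hdeg : ∀ x, ((G.induce Dᶜ).neighborSet x).ncard ≤ Δ := by
    intro x
    have hx : (x : Fin n) ∈ {x | (G.neighborSet x).ncard ≤ Δ} := by
      rw [← hDc]; exact x.2
    refine le_trans ?_ hx
    refine Set.ncard_le_ncard_of_injOn (fun y : (Dᶜ : Set (Fin n)) => (y : Fin n)) ?_ ?_
      (Set.toFinite _)
    · intro y hy
      exact hy
    · intro a _ b _ hab
      exact Subtype.ext hab
  unfold Fine
  rw [← hDc]
  refine ⟨hcf, hdeg, ?_, ?_, ?_⟩
  · have e1 : (D.ncard : ℝ) ≤ n / (Δ : ℝ) ^ 2 := by rw [hDn]; exact h1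
    have e2 : D.ncard + Dᶜ.ncard = n := by
      rw [Set.ncard_add_ncard_compl D (Set.toFinite _) (Set.toFinite _), Nat.card_eq_fintype_card,
        Fintype.card_fin]
    have e3 : (D.ncard : ℝ) + (Dᶜ.ncard : ℝ) = n := by exact_mod_cast e2
    linarith
  · have h5 := Run7.h305.RG.card_edge_le G D
    rw [Nat.card_coe_set_eq, Nat.card_coe_set_eq, ← hm] at h5
    refine h5.trans (Nat.add_le_add_left ?_ _)
    convert h2'
  · intro q hq
    by_cases hqs : q < 10 * Δ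
    · exact trim η q n G D hη hη1 (hq4 q hq) hDn2 (by convert h2') (h3 q hqs hq)
    · have hqs' : 10 * Δ ≤ q := not_lt.1 hqs
      refine large_q η hη hη1 _ _ hcf Δ q (fun v => ?_) hqs' ?_ (by omega)
      · rw [Nat.card_coe_set_eq]; exact hdeg v
      · refine hΔη.trans ?_
        have : Δ ≤ q := by omega
        exact_mod_cast this

theorem log_range : ∀ B : ℝ, ∃ Δ₀ : ℕ, ∀ Δ : ℕ, Δ₀ ≤ Δ → B ≤ 1 / 2 * (Δ / Real.log Δ) := by
  intro B
  have h1 : Tendsto (fun x : ℝ => Real.log x / x) atTop (nhds 0) := by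
    have := Real.tendsto_pow_log_div_mul_add_atTop 1 0 1 (by norm_num)
    simpa using this
  have h2 : Tendsto (fun n : ℕ => Real.log (n : ℝ) / n) atTop (nhds 0) :=
    h1.comp tendsto_natCast_atTop_atTop
  have hpos : (0 : ℝ) < 1 / (2 * (|B| + 1)) := by positivity
  obtain ⟨n₁, hn₁⟩ := eventually_atTop.1
    ((h2.eventually_lt_const hpos).and (eventually_ge_atTop 2))
  refine ⟨n₁, fun Δ hΔ => ?_⟩
  obtain ⟨a1, a2⟩ := hn₁ Δ hΔ
  have hΔR : (2 : ℝ) ≤ Δ := by exact_mod_cast a2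
  have hlog : 0 < Real.log Δ := Real.log_pos (by linarith)
  rw [div_lt_div_iff₀ (by linarith) (by positivity)] at a1
  have h3 : |B| + 1 ≤ 1 / 2 * (Δ / Real.log Δ) := by
    rw [← mul_div_assoc, le_div_iff₀ hlog]
    nlinarith
  linarith [le_abs_self B]

/-- **Subgraphs with `m` edges of triangle-free host graphs.** -/
theorem host_res (ε δ η c γ K : ℝ) (hε : 0 < ε) (hδ : 0 < δ) (hδ1 : δ < 1) (hη : 0 < η)
    (hη1 : η < 1) (hc : 0 < c) (hc1 : c ≤ 1) (hγ : 0 < γ) (hK : 0 < K) :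
    ∃ Δ₀ : ℕ, ∀ Δ : ℕ, Δ₀ ≤ Δ → ∃ n₀ : ℕ, ∀ n : ℕ, n₀ ≤ n → ∀ (F : SimpleGraph (Fin n))
      (m D : ℕ), F.CliqueFree 3 → (∀ x, (F.neighborSet x).ncard ≤ D) →
      (m : ℝ) * D ≤ (1 - δ) * Δ * F.edgeSet.ncard → (m : ℝ) * (n : ℝ) ^ c ≤ F.edgeSet.ncard →
      (∀ U : Finset (Fin n), (U.card : ℝ) ≤ 2 * (n : ℝ) ^ (1 - 3 * c / 20) →
        (m : ℝ) * {z : Fin n × Fin n | z.1 ∈ U ∧ z.2 ∈ U ∧ F.Adj z.1 z.2}.ncard ≤
          (n : ℝ) ^ (-γ) * U.card * F.edgeSet.ncard) →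
      ({E : Set (Sym2 (Fin n)) | E ⊆ F.edgeSet ∧ E.ncard = m ∧
          ¬ Fine (SimpleGraph.fromEdgeSet E) m Δ ε η}.ncard : ℝ) ≤
        (n : ℝ) ^ (-K) * (F.edgeSet.ncard.choose m) := by
  obtain ⟨Δ₁, hmain⟩ := main_graph ε (η / 4) c γ (K + 3) hε (by linarith) (by linarith) hc hc1 hγ
    (by linarith)
  obtain ⟨Δ₂, hhd⟩ := hd δ hδ hδ1
  obtain ⟨Δ₃, hlr⟩ := log_range (4 / η)
  obtain ⟨Δ₄, hΔ₄⟩ := exists_nat_ge (1 / (η * (1 - η)))
  refine ⟨max (max Δ₁ Δ₂) (max (max Δ₃ Δ₄) 2), fun Δ hΔ => ?_⟩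
  have hΔ₁ : Δ₁ ≤ Δ := ((le_max_left _ _).trans (le_max_left _ _)).trans hΔ
  have hΔ₂ : Δ₂ ≤ Δ := ((le_max_right _ _).trans (le_max_left _ _)).trans hΔ
  have hΔ₃ : Δ₃ ≤ Δ :=
    (((le_max_left _ _).trans (le_max_left _ _)).trans (le_max_right _ _)).trans hΔ
  have hΔ₄' : Δ₄ ≤ Δ :=
    (((le_max_right _ _).trans (le_max_left _ _)).trans (le_max_right _ _)).trans hΔ
  have hΔ2 : 2 ≤ Δ := ((le_max_right _ _).trans (le_max_right _ _)).trans hΔ
  have hΔR : (2 : ℝ) ≤ Δ := by exact_mod_cast hΔ2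
  have hq4 : ∀ q : ℕ, (1 / 2 + ε) * (Δ / Real.log Δ) ≤ q → 4 / η ≤ q := by
    intro q hq
    refine (hlr Δ hΔ₃).trans (le_trans ?_ hq)
    refine mul_le_mul_of_nonneg_right (by linarith) ?_
    exact div_nonneg (by linarith) (Real.log_nonneg (by linarith))
  -- thresholds for all `q`
  have hex : ∀ q : ℕ, ∃ n₀ : ℕ, (1 / 2 + ε) * (Δ / Real.log Δ) ≤ q → ∀ n : ℕ, n₀ ≤ n →
      ∀ p : Fin n → Fin n → ℝ, Hyp2 p c γ Δ →
      ∑ G ∈ univ.filter (fun G => ¬ Bound G q (η / 4)), WG p G ≤ (n : ℝ) ^ (-(K + 3)) := by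
    intro q
    by_cases hq : (1 / 2 + ε) * (Δ / Real.log Δ) ≤ q
    · obtain ⟨n₀, h⟩ := hmain Δ q hΔ₁ hq
      exact ⟨n₀, fun _ => h⟩
    · exact ⟨0, fun h => absurd h hq⟩
  choose N hN using hex
  obtain ⟨n₂, hhd⟩ := hhd Δ hΔ₂ (K + 3) (by linarith)
  refine ⟨max (max ((range (10 * Δ)).sup N) n₂) (10 * Δ + 2), fun n hn F m D hF hFD hmD hmc hU =>
    ?_⟩
  have hn₁ : (range (10 * Δ)).sup N ≤ n := ((le_max_left _ _).trans (le_max_left _ _)).trans hn
  have hn₂ : n₂ ≤ n := ((le_max_right _ _).trans (le_max_left _ _)).trans hn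
  have hn₃ : 10 * Δ + 2 ≤ n := (le_max_right _ _).trans hn
  have hn2 : (2 : ℝ) ≤ n := by exact_mod_cast (show 2 ≤ n by omega)
  have hn0 : (0 : ℝ) < n := by linarith
  set e : ℕ := F.edgeSet.ncard with he
  have hnc : (1 : ℝ) ≤ (n : ℝ) ^ c := Real.one_le_rpow (by linarith) hc.le
  have hme : m ≤ e := by
    have : (m : ℝ) ≤ e := by
      refine le_trans ?_ hmc
      exact le_mul_of_one_le_right (Nat.cast_nonneg _) hnc
    exact_mod_cast this
  set p : Fin n → Fin n → ℝ := fun x y => if F.Adj x y then (m : ℝ) / e else 0 with hp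
  have hr0 : (0 : ℝ) ≤ (m : ℝ) / e := by positivity
  have hp0 : ∀ x y, 0 ≤ p x y := by
    intro x y; rw [hp]; dsimp only; split_ifs; exacts [hr0, le_rfl]
  have hrc : (m : ℝ) / e ≤ (n : ℝ) ^ (-c) := by
    rcases Nat.eq_zero_or_pos e with h | h
    · rw [h]; simp; positivity
    · rw [div_le_iff₀ (by exact_mod_cast h), Real.rpow_neg hn0.le, ← div_eq_inv_mul,
        le_div_iff₀ (by positivity)]
      exact hmc
  have hpc : ∀ x y, p x y ≤ (n : ℝ) ^ (-c) := by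
    intro x y; rw [hp]; dsimp only; split_ifs
    · exact hrc
    · positivity
  have hp1 : ∀ x y, p x y ≤ 1 := fun x y => (hpc x y).trans
    (Real.rpow_le_one_of_one_le_of_nonpos (by linarith) (by linarith))
  have hps : ∀ x y, p x y = p y x := by
    intro x y; rw [hp]; dsimp only
    by_cases h : F.Adj x y
    · rw [if_pos h, if_pos h.symm]
    · rw [if_neg h, if_neg (fun h' => h h'.symm)]
  have hrow : ∀ x, ∑ y, p x y = (F.neighborSet x).ncard * ((m : ℝ) / e) := by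
    intro x
    rw [hp]; dsimp only
    rw [← Finset.sum_filter, Finset.sum_const, nsmul_eq_mul, filter_adj]
  have hpd' : ∀ x, ∑ y, p x y ≤ (1 - δ) * Δ := by
    intro x
    rw [hrow]
    rcases Nat.eq_zero_or_pos e with h | h
    · rw [h]; simp
      exact mul_nonneg (by linarith) (by linarith)
    · rw [← mul_div_assoc, div_le_iff₀ (by exact_mod_cast h)]
      refine le_trans ?_ hmD
      rw [mul_comm]
      exact mul_le_mul_of_nonneg_left (by exact_mod_cast hFD x) (Nat.cast_nonneg _)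
  have hpd : ∀ x, ∑ y, p x y ≤ Δ := fun x => (hpd' x).trans (by nlinarith)
  have hspot : ∀ U : Finset (Fin n), (U.card : ℝ) ≤ 2 * (n : ℝ) ^ (1 - 3 * c / 20) →
      ∑ x ∈ U, ∑ y ∈ U, p x y ≤ (n : ℝ) ^ (-γ) * U.card := by
    intro U hUc
    have h := hU U hUc
    have e1 : ∑ x ∈ U, ∑ y ∈ U, p x y =
        ({z : Fin n × Fin n | z.1 ∈ U ∧ z.2 ∈ U ∧ F.Adj z.1 z.2}.ncard : ℝ) * ((m : ℝ) / e) := by
      rw [← Finset.sum_product', hp]
      dsimp only
      rw [← Finset.sum_filter, Finset.sum_const, nsmul_eq_mul]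
      congr 2
      rw [Set.ncard_eq_toFinset_card']
      congr 1
      ext z
      simp [and_assoc]
    rw [e1]
    rcases Nat.eq_zero_or_pos e with h' | h'
    · rw [h']; simp; positivity
    · rw [← mul_div_assoc, div_le_iff₀ (by exact_mod_cast h'), mul_comm]
      exact h
  have hyp : Hyp2 p c γ Δ := ⟨hp0, hpc, hps, hpd, hspot⟩
  -- the bad events
  set P1 : SimpleGraph (Fin n) → Prop := fun G =>
    ¬ (((univ.filter fun x => Δ < (univ.filter fun y => G.Adj x y).card).card : ℝ) ≤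
      n / (Δ : ℝ) ^ 2 ∧ ((∑ x ∈ univ.filter fun x => Δ < (univ.filter fun y => G.Adj x y).card,
      (univ.filter fun y => G.Adj x y).card : ℕ) : ℝ) ≤ n) with hP1
  set P2 : ℕ → SimpleGraph (Fin n) → Prop := fun q G =>
    (1 / 2 + ε) * (Δ / Real.log Δ) ≤ q ∧ ¬ Bound G q (η / 4) with hP2
  set P : SimpleGraph (Fin n) → Prop := fun G => P1 G ∨ ∃ q ∈ range (10 * Δ), P2 q G with hP
  have hWG : ∀ G, 0 ≤ WG p G := WG_nonneg hp0 hp1
  have b1 : ∑ G ∈ univ.filter (fun G => P1 G), WG p G ≤ (n : ℝ) ^ (-(K + 3)) := by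
    exact event_le p P1 _ (hhd n hn₂ p hp0 hp1 hps hpd')
  have b2 : ∀ q ∈ range (10 * Δ), ∑ G ∈ univ.filter (fun G => P2 q G), WG p G ≤
      (n : ℝ) ^ (-(K + 3)) := by
    intro q hq
    by_cases hqr : (1 / 2 + ε) * (Δ / Real.log Δ) ≤ q
    · refine le_trans ?_ (hN q hqr n ((Finset.le_sup hq).trans hn₁) p hyp)
      refine Finset.sum_le_sum_of_subset_of_nonneg ?_ (fun G _ _ => hWG G)
      intro G hG
      rw [mem_filter] at hG ⊢
      exact ⟨hG.1, hG.2.2⟩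
    · have : (univ.filter fun G => P2 q G) = ∅ := by
        rw [Finset.filter_eq_empty_iff]
        intro G _ h
        exact hqr h.1
      rw [this, Finset.sum_empty]
      positivity
  have b3 : ∑ G ∈ univ.filter (fun G => P G), WG p G ≤
      ((10 * Δ + 1 : ℕ) : ℝ) * (n : ℝ) ^ (-(K + 3)) := by
    have h1 : ∑ G ∈ univ.filter (fun G => P G), WG p G ≤
        ∑ G, ((if P1 G then WG p G else 0) +
          ∑ q ∈ range (10 * Δ), if P2 q G then WG p G else 0) := by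
      rw [Finset.sum_filter]
      refine Finset.sum_le_sum fun G _ => ?_
      have n1 : 0 ≤ (if P1 G then WG p G else 0) := by
        split_ifs
        · exact hWG G
        · exact le_rfl
      have n2 : ∀ q, 0 ≤ (if P2 q G then WG p G else 0) := by
        intro q
        split_ifs
        · exact hWG G
        · exact le_rfl
      by_cases hPG : P G
      · rw [if_pos hPG]
        rcases hPG with h | ⟨q, hq, h⟩
        · rw [if_pos h]
          exact le_add_of_nonneg_right (Finset.sum_nonneg fun q _ => n2 q)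
        · refine le_add_of_nonneg_of_le n1 ?_
          refine le_trans ?_ (Finset.single_le_sum (f := fun q => if P2 q G then WG p G else 0)
            (fun q _ => n2 q) hq)
          rw [if_pos h]
      · rw [if_neg hPG]
        exact add_nonneg n1 (Finset.sum_nonneg fun q _ => n2 q)
    refine h1.trans ?_
    rw [Finset.sum_add_distrib, Finset.sum_comm, ← Finset.sum_filter]
    have h2 : ∑ q ∈ range (10 * Δ), ∑ G, (if P2 q G then WG p G else 0) ≤
        ∑ q ∈ range (10 * Δ), (n : ℝ) ^ (-(K + 3)) := by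
      refine Finset.sum_le_sum fun q hq => ?_
      rw [← Finset.sum_filter]
      exact b2 q hq
    rw [Finset.sum_const, card_range, nsmul_eq_mul] at h2
    have h3 : ((10 * Δ + 1 : ℕ) : ℝ) * (n : ℝ) ^ (-(K + 3)) =
        (n : ℝ) ^ (-(K + 3)) + ((10 * Δ : ℕ) : ℝ) * (n : ℝ) ^ (-(K + 3)) := by
      push_cast; ring
    rw [h3]
    exact add_le_add b1 h2
  have hh := host n F m P (by rw [← he]; exact hme)
  rw [← he] at hh
  -- the number of the edges of the host graph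
  have hen : (e : ℝ) + 1 ≤ (n : ℝ) ^ (2 : ℝ) := by
    have h1 : e ≤ n.choose 2 := by
      rw [he, Set.ncard_eq_toFinset_card']
      have := F.card_edgeFinset_le_card_choose_two
      rw [Fintype.card_fin] at this
      exact this
    have h2 : n.choose 2 + 1 ≤ n * n := by
      rw [Nat.choose_two_right]
      have h3 : n * (n - 1) / 2 ≤ n * (n - 1) := Nat.div_le_self _ _
      have h4 : n * (n - 1) + n = n * n := by
        cases n with
        | zero => omega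
        | succ k => simp only [Nat.add_sub_cancel]; ring
      have : 1 ≤ n := by omega
      omega
    have h3 : (e : ℝ) + 1 ≤ n * n := by exact_mod_cast (Nat.add_le_add_right h1 1).trans h2
    rw [Real.rpow_two, pow_two]
    exact h3
  have hsubE : {E : Set (Sym2 (Fin n)) | E ⊆ F.edgeSet ∧ E.ncard = m ∧
      ¬ Fine (SimpleGraph.fromEdgeSet E) m Δ ε η} ⊆
      {E : Set (Sym2 (Fin n)) | E ⊆ F.edgeSet ∧ E.ncard = m ∧ P (SimpleGraph.fromEdgeSet E)} := by
    rintro E ⟨hE1, hE2, hE3⟩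
    refine ⟨hE1, hE2, ?_⟩
    by_contra hcon
    apply hE3
    rw [hP] at hcon
    dsimp only at hcon
    push Not at hcon
    obtain ⟨g1, g2⟩ := hcon
    have hEs : (SimpleGraph.fromEdgeSet E).edgeSet = E := by
      rw [SimpleGraph.edgeSet_fromEdgeSet]
      ext z
      constructor
      · exact fun h => h.1
      · intro h
        exact ⟨h, fun hd => F.not_isDiag_of_mem_edgeSet (hE1 h) hd⟩
    refine fine_of _ m Δ ε η hη hη1 ?_ ?_ hΔ2 ?_ hq4 g1.1 g1.2 ?_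
    · refine hF.anti ?_
      rw [← SimpleGraph.edgeSet_subset_edgeSet, hEs]
      exact hE1
    · rw [hEs, hE2]
    · exact hΔ₄.trans (by exact_mod_cast hΔ₄')
    · intro q hq hqr
      by_contra hb
      exact g2 q (mem_range.2 hq) ⟨hqr, hb⟩
  calc ({E : Set (Sym2 (Fin n)) | E ⊆ F.edgeSet ∧ E.ncard = m ∧
          ¬ Fine (SimpleGraph.fromEdgeSet E) m Δ ε η}.ncard : ℝ)
      ≤ ({E : Set (Sym2 (Fin n)) | E ⊆ F.edgeSet ∧ E.ncard = m ∧
          P (SimpleGraph.fromEdgeSet E)}.ncard : ℝ) := by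
        exact_mod_cast Set.ncard_le_ncard hsubE (Set.toFinite _)
    _ ≤ ((e : ℝ) + 1) * (e.choose m) * ∑ G ∈ univ.filter (fun G => P G), WG p G := by
        convert hh
    _ ≤ (n : ℝ) ^ (2 : ℝ) * (e.choose m) * ((n : ℝ) ^ (1 : ℝ) * (n : ℝ) ^ (-(K + 3))) := by
        refine mul_le_mul (mul_le_mul_of_nonneg_right hen (Nat.cast_nonneg _)) ?_
          (Finset.sum_nonneg fun G _ => hWG G) (by positivity)
        refine b3.trans ?_
        refine mul_le_mul_of_nonneg_right ?_ (by positivity)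
        rw [Real.rpow_one]
        exact_mod_cast (show 10 * Δ + 1 ≤ n by omega)
    _ = (n : ℝ) ^ (-K) * (e.choose m) := by
        have : (n : ℝ) ^ (-K) = (n : ℝ) ^ (2 : ℝ) * ((n : ℝ) ^ (1 : ℝ) * (n : ℝ) ^ (-(K + 3))) := by
          rw [← Real.rpow_add hn0, ← Real.rpow_add hn0]
          congr 1
          ring
        rw [this]
        ring

end Run7.h932.RG
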