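import Mathlib

set_option autoImplicit false

namespace Run7.h932.RG

open Filter

/-- the loss of the mean field bound -/
theorem loss (k n : ℕ) (hk : 1 ≤ k) (hn : 1 ≤ n) :
    ((n * k + 1 : ℕ) : ℝ) ^ (2 * n / ⌈(n : ℝ) ^ (3 / 10 : ℝ)⌉₊) *
      Real.exp (8 * (n * k * √(⌈(n : ℝ) ^ (3 / 10 : ℝ)⌉₊ *
        ((4 * (n : ℝ) ^ (-(9 / 10) : ℝ)) * (2 * Real.log k))))) ≤
    Real.exp ((2 * (25 + Real.log (2 * k)) + 32 * k * √(Real.log k)) *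
      (n : ℝ) ^ (37 / 50 : ℝ)) := by
  have hn1 : (1 : ℝ) ≤ n := by exact_mod_cast hn
  have hn0 : (0 : ℝ) < n := by linarith
  have hk1 : (1 : ℝ) ≤ k := by exact_mod_cast hk
  have hlogk : 0 ≤ Real.log k := Real.log_nonneg hk1
  set N : ℕ := ⌈(n : ℝ) ^ (3 / 10 : ℝ)⌉₊ with hN
  have hp1 : 1 ≤ (n : ℝ) ^ (3 / 10 : ℝ) := Real.one_le_rpow hn1 (by norm_num)
  have hNlo : (n : ℝ) ^ (3 / 10 : ℝ) ≤ N := Nat.le_ceil _
  have hNhi : (N : ℝ) ≤ 2 * (n : ℝ) ^ (3 / 10 : ℝ) := by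
    have := Nat.ceil_lt_add_one (show 0 ≤ (n : ℝ) ^ (3 / 10 : ℝ) by positivity)
    rw [← hN] at this
    linarith
  have hx : (1 : ℝ) ≤ ((n * k + 1 : ℕ) : ℝ) := by
    push_cast
    nlinarith
  -- first factor
  have h1 : ((n * k + 1 : ℕ) : ℝ) ^ (2 * n / N) ≤
      Real.exp (2 * (n : ℝ) ^ (7 / 10 : ℝ) * Real.log ((n * k + 1 : ℕ) : ℝ)) := by
    have e : ((n * k + 1 : ℕ) : ℝ) ^ (2 * n / N) =
        Real.exp (((2 * n / N : ℕ) : ℝ) * Real.log ((n * k + 1 : ℕ) : ℝ)) := by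
      rw [mul_comm (((2 * n / N : ℕ) : ℝ)) _, Real.exp_mul, Real.exp_log (by linarith),
        Real.rpow_natCast]
    rw [e]
    apply Real.exp_le_exp.2
    refine mul_le_mul_of_nonneg_right ?_ (Real.log_nonneg hx)
    calc ((2 * n / N : ℕ) : ℝ) ≤ ((2 * n : ℕ) : ℝ) / N := Nat.cast_div_le
      _ ≤ (2 * n) / (n : ℝ) ^ (3 / 10 : ℝ) := by
          push_cast
          exact div_le_div_of_nonneg_left (by positivity) (by linarith) hNlo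
      _ = 2 * (n : ℝ) ^ (7 / 10 : ℝ) := by
          rw [mul_div_assoc]
          congr 1
          rw [div_eq_iff (by positivity), ← Real.rpow_add hn0]
          norm_num
  have h2 : Real.log ((n * k + 1 : ℕ) : ℝ) ≤ 25 * (n : ℝ) ^ (1 / 25 : ℝ) + Real.log (2 * k) := by
    have e1 : ((n * k + 1 : ℕ) : ℝ) ≤ n * (2 * k) := by
      push_cast
      nlinarith
    have e2 := Real.log_le_log (by linarith) e1
    rw [Real.log_mul (by positivity) (by positivity)] at e2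
    have e3 := Real.log_le_rpow_div hn0.le (show (0 : ℝ) < 1 / 25 by norm_num)
    have e4 : (n : ℝ) ^ (1 / 25 : ℝ) / (1 / 25) = 25 * (n : ℝ) ^ (1 / 25 : ℝ) := by ring
    linarith
  have hl2 : 0 ≤ Real.log (2 * k) := Real.log_nonneg (by linarith)
  have h3 : 2 * (n : ℝ) ^ (7 / 10 : ℝ) * Real.log ((n * k + 1 : ℕ) : ℝ) ≤
      2 * (25 + Real.log (2 * k)) * (n : ℝ) ^ (37 / 50 : ℝ) := by
    have e1 : (n : ℝ) ^ (7 / 10 : ℝ) * (n : ℝ) ^ (1 / 25 : ℝ) = (n : ℝ) ^ (37 / 50 : ℝ) := by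
      rw [← Real.rpow_add hn0]; norm_num
    have e2 : (n : ℝ) ^ (7 / 10 : ℝ) ≤ (n : ℝ) ^ (37 / 50 : ℝ) :=
      Real.rpow_le_rpow_of_exponent_le hn1 (by norm_num)
    have e3 : 0 ≤ (n : ℝ) ^ (7 / 10 : ℝ) := by positivity
    calc 2 * (n : ℝ) ^ (7 / 10 : ℝ) * Real.log ((n * k + 1 : ℕ) : ℝ)
        ≤ 2 * (n : ℝ) ^ (7 / 10 : ℝ) * (25 * (n : ℝ) ^ (1 / 25 : ℝ) + Real.log (2 * k)) :=
          mul_le_mul_of_nonneg_left h2 (by positivity)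
      _ = 50 * ((n : ℝ) ^ (7 / 10 : ℝ) * (n : ℝ) ^ (1 / 25 : ℝ)) +
            2 * Real.log (2 * k) * (n : ℝ) ^ (7 / 10 : ℝ) := by ring
      _ ≤ 50 * (n : ℝ) ^ (37 / 50 : ℝ) + 2 * Real.log (2 * k) * (n : ℝ) ^ (37 / 50 : ℝ) := by
          rw [e1]
          have := mul_le_mul_of_nonneg_left e2 (show 0 ≤ 2 * Real.log (2 * k) by positivity)
          linarith
      _ = 2 * (25 + Real.log (2 * k)) * (n : ℝ) ^ (37 / 50 : ℝ) := by ring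
  -- second factor
  have h4 : √(N * ((4 * (n : ℝ) ^ (-(9 / 10) : ℝ)) * (2 * Real.log k))) ≤
      4 * √(Real.log k) * (n : ℝ) ^ (-(3 / 10) : ℝ) := by
    apply Real.sqrt_le_iff.2
    refine ⟨by positivity, ?_⟩
    have e1 : (4 * √(Real.log k) * (n : ℝ) ^ (-(3 / 10) : ℝ)) ^ 2 =
        16 * Real.log k * (n : ℝ) ^ (-(6 / 10) : ℝ) := by
      rw [mul_pow, mul_pow, Real.sq_sqrt hlogk, ← Real.rpow_natCast ((n : ℝ) ^ (-(3 / 10) : ℝ)),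
        ← Real.rpow_mul hn0.le]
      norm_num
    have e2 : (n : ℝ) ^ (3 / 10 : ℝ) * (n : ℝ) ^ (-(9 / 10) : ℝ) =
        (n : ℝ) ^ (-(6 / 10) : ℝ) := by
      rw [← Real.rpow_add hn0]; norm_num
    rw [e1]
    calc (N : ℝ) * ((4 * (n : ℝ) ^ (-(9 / 10) : ℝ)) * (2 * Real.log k))
        ≤ (2 * (n : ℝ) ^ (3 / 10 : ℝ)) * ((4 * (n : ℝ) ^ (-(9 / 10) : ℝ)) * (2 * Real.log k)) :=
          mul_le_mul_of_nonneg_right hNhi (by positivity)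
      _ = 16 * Real.log k * ((n : ℝ) ^ (3 / 10 : ℝ) * (n : ℝ) ^ (-(9 / 10) : ℝ)) := by ring
      _ ≤ _ := by rw [e2]
  have h5 : 8 * (n * k * √(N * ((4 * (n : ℝ) ^ (-(9 / 10) : ℝ)) * (2 * Real.log k)))) ≤
      32 * k * √(Real.log k) * (n : ℝ) ^ (37 / 50 : ℝ) := by
    have e1 : (n : ℝ) * (n : ℝ) ^ (-(3 / 10) : ℝ) = (n : ℝ) ^ (7 / 10 : ℝ) := by
      nth_rw 1 [← Real.rpow_one (n : ℝ)]
      rw [← Real.rpow_add hn0]; norm_num
    have e2 : (n : ℝ) ^ (7 / 10 : ℝ) ≤ (n : ℝ) ^ (37 / 50 : ℝ) :=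
      Real.rpow_le_rpow_of_exponent_le hn1 (by norm_num)
    calc 8 * (n * k * √(N * ((4 * (n : ℝ) ^ (-(9 / 10) : ℝ)) * (2 * Real.log k))))
        ≤ 8 * (n * k * (4 * √(Real.log k) * (n : ℝ) ^ (-(3 / 10) : ℝ))) := by gcongr
      _ = 32 * k * √(Real.log k) * ((n : ℝ) * (n : ℝ) ^ (-(3 / 10) : ℝ)) := by ring
      _ ≤ 32 * k * √(Real.log k) * (n : ℝ) ^ (37 / 50 : ℝ) := by
          rw [e1]; gcongr
  calc _ ≤ Real.exp (2 * (n : ℝ) ^ (7 / 10 : ℝ) * Real.log ((n * k + 1 : ℕ) : ℝ)) *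
        Real.exp (8 * (n * k * √(N * ((4 * (n : ℝ) ^ (-(9 / 10) : ℝ)) * (2 * Real.log k))))) :=
        mul_le_mul_of_nonneg_right h1 (Real.exp_pos _).le
    _ ≤ _ := by
        rw [← Real.exp_add]
        apply Real.exp_le_exp.2
        linarith

/-- asymptotics for AA -/
theorem evt (C c : ℝ) (hc : 0 < c) : ∃ n₀ : ℕ, 3 ≤ n₀ ∧ ∀ n : ℕ, n₀ ≤ n →
    C * (n : ℝ) ^ (37 / 50 : ℝ) ≤ (n : ℝ) ^ (3 / 4 : ℝ) ∧
    Real.exp (-(n : ℝ) ^ (3 / 4 : ℝ)) + 2 * Real.exp (-(c * n)) ≤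
      Real.exp (-(C * (n : ℝ) ^ (37 / 50 : ℝ))) := by
  have t1 : Tendsto (fun n : ℕ => (n : ℝ) ^ (1 / 100 : ℝ)) atTop atTop :=
    (tendsto_rpow_atTop (by norm_num)).comp tendsto_natCast_atTop_atTop
  have t2 : Tendsto (fun n : ℕ => (n : ℝ) ^ (3 / 4 : ℝ)) atTop atTop :=
    (tendsto_rpow_atTop (by norm_num)).comp tendsto_natCast_atTop_atTop
  have t3 : Tendsto (fun n : ℕ => (n : ℝ) ^ (1 / 4 : ℝ)) atTop atTop :=
    (tendsto_rpow_atTop (by norm_num)).comp tendsto_natCast_atTop_atTop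
  have ev := ((t1.eventually_ge_atTop (2 * |C|)).and
    ((t2.eventually_ge_atTop (2 * Real.log 2)).and (t3.eventually_ge_atTop (2 / c)))).and
      (eventually_ge_atTop 3)
  obtain ⟨n₁, hn₁⟩ := eventually_atTop.1 ev
  refine ⟨max n₁ 3, le_max_right _ _, fun n hn => ?_⟩
  obtain ⟨⟨a1, a2, a3⟩, a4⟩ := hn₁ n ((le_max_left _ _).trans hn)
  have hn1 : (1 : ℝ) ≤ n := by exact_mod_cast (show 1 ≤ n by omega)
  have hn0 : (0 : ℝ) < n := by linarith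
  set L := (n : ℝ) ^ (3 / 4 : ℝ) with hL
  set M := (n : ℝ) ^ (37 / 50 : ℝ) with hM
  have hM0 : 0 < M := by rw [hM]; positivity
  have hL0 : 0 < L := by rw [hL]; positivity
  have e1 : L = (n : ℝ) ^ (1 / 100 : ℝ) * M := by
    rw [hL, hM, ← Real.rpow_add hn0]; norm_num
  have e2 : (n : ℝ) = (n : ℝ) ^ (1 / 4 : ℝ) * L := by
    rw [hL, ← Real.rpow_add hn0]; norm_num
  have b1 : C * M ≤ L / 2 := by
    have h1 : C * M ≤ |C| * M := mul_le_mul_of_nonneg_right (le_abs_self C) hM0.le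
    have h2 : 2 * |C| * M ≤ L := by
      rw [e1]; exact mul_le_mul_of_nonneg_right a1 hM0.le
    linarith
  have b2 : 2 * L ≤ c * n := by
    rw [e2]
    have : 2 / c * L ≤ (n : ℝ) ^ (1 / 4 : ℝ) * L := mul_le_mul_of_nonneg_right a3 hL0.le
    calc 2 * L = c * (2 / c * L) := by field_simp
      _ ≤ c * ((n : ℝ) ^ (1 / 4 : ℝ) * L) := mul_le_mul_of_nonneg_left this hc.le
  refine ⟨by linarith, ?_⟩
  have c1 : Real.exp (-(L / 2)) ≤ Real.exp (-(C * M)) := Real.exp_le_exp.2 (by linarith)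
  have c2 : Real.exp (-(c * n)) ≤ Real.exp (-(2 * L)) := Real.exp_le_exp.2 (by linarith)
  set u := Real.exp (-(L / 2)) with hu
  have hu0 : 0 < u := Real.exp_pos _
  have hu1 : u ≤ 1 / 2 := by
    have : u ≤ Real.exp (-Real.log 2) := Real.exp_le_exp.2 (by linarith)
    rw [Real.exp_neg, Real.exp_log (by norm_num)] at this
    linarith
  have d1 : Real.exp (-L) = u ^ 2 := by
    rw [hu, ← Real.exp_nat_mul]; congr 1; push_cast; ring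
  have d2 : Real.exp (-(2 * L)) = u ^ 4 := by
    rw [hu, ← Real.exp_nat_mul]; congr 1; push_cast; ring
  rw [d1]
  rw [d2] at c2
  have : u ^ 2 + 2 * u ^ 4 ≤ u := by
    have h1 : u ^ 2 ≤ 1 / 2 * u := by nlinarith
    have h3 : u ^ 4 = u * (u * (u * u)) := by ring
    have h4 : u * (u * u) ≤ 1 / 8 := by
      have : u * u ≤ 1 / 4 := by nlinarith
      nlinarith
    have h5 : u ^ 4 ≤ 1 / 8 * u := by rw [h3]; nlinarith
    linarith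
  linarith

end Run7.h932.RG
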