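import Mathlib

set_option autoImplicit false

namespace Run7.h932.RG

open Filter

/-- the loss of the mean field bound -/
theorem loss2 (c : ℝ) (hc : 0 < c) (k n : ℕ) (hk : 1 ≤ k) (hn : 1 ≤ n) :
    ((n * k + 1 : ℕ) : ℝ) ^ (2 * n / ⌈(n : ℝ) ^ (c / 3)⌉₊) *
      Real.exp (8 * (n * k * √(⌈(n : ℝ) ^ (c / 3)⌉₊ *
        ((4 * (n : ℝ) ^ (-c)) * (2 * Real.log k))))) ≤
    Real.exp ((2 * (60 / c + Real.log (2 * k)) + 32 * k * √(Real.log k)) *
      (n : ℝ) ^ (1 - 19 * c / 60)) := by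
  have hn1 : (1 : ℝ) ≤ n := by exact_mod_cast hn
  have hn0 : (0 : ℝ) < n := by linarith
  have hk1 : (1 : ℝ) ≤ k := by exact_mod_cast hk
  have hlogk : 0 ≤ Real.log k := Real.log_nonneg hk1
  set N : ℕ := ⌈(n : ℝ) ^ (c / 3)⌉₊ with hN
  have hp1 : 1 ≤ (n : ℝ) ^ (c / 3) := Real.one_le_rpow hn1 (by positivity)
  have hNlo : (n : ℝ) ^ (c / 3) ≤ N := Nat.le_ceil _
  have hNhi : (N : ℝ) ≤ 2 * (n : ℝ) ^ (c / 3) := by
    have := Nat.ceil_lt_add_one (show 0 ≤ (n : ℝ) ^ (c / 3) by positivity)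
    rw [← hN] at this
    linarith
  have hx : (1 : ℝ) ≤ ((n * k + 1 : ℕ) : ℝ) := by
    push_cast
    nlinarith
  -- first factor
  have h1 : ((n * k + 1 : ℕ) : ℝ) ^ (2 * n / N) ≤
      Real.exp (2 * (n : ℝ) ^ (1 - c / 3) * Real.log ((n * k + 1 : ℕ) : ℝ)) := by
    have e : ((n * k + 1 : ℕ) : ℝ) ^ (2 * n / N) =
        Real.exp (((2 * n / N : ℕ) : ℝ) * Real.log ((n * k + 1 : ℕ) : ℝ)) := by
      rw [mul_comm (((2 * n / N : ℕ) : ℝ)) _, Real.exp_mul, Real.exp_log (by linarith),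
        Real.rpow_natCast]
    rw [e]
    apply Real.exp_le_exp.2
    refine mul_le_mul_of_nonneg_right ?_ (Real.log_nonneg hx)
    calc ((2 * n / N : ℕ) : ℝ) ≤ ((2 * n : ℕ) : ℝ) / N := Nat.cast_div_le
      _ ≤ (2 * n) / (n : ℝ) ^ (c / 3) := by
          push_cast
          exact div_le_div_of_nonneg_left (by positivity) (by linarith) hNlo
      _ = 2 * (n : ℝ) ^ (1 - c / 3) := by
          rw [mul_div_assoc, Real.rpow_sub hn0, Real.rpow_one]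
  have h2 : Real.log ((n * k + 1 : ℕ) : ℝ) ≤
      60 / c * (n : ℝ) ^ (c / 60) + Real.log (2 * k) := by
    have e1 : ((n * k + 1 : ℕ) : ℝ) ≤ n * (2 * k) := by
      push_cast
      nlinarith
    have e2 := Real.log_le_log (by linarith) e1
    rw [Real.log_mul (by positivity) (by positivity)] at e2
    have e3 := Real.log_le_rpow_div hn0.le (show (0 : ℝ) < c / 60 by positivity)
    have e4 : (n : ℝ) ^ (c / 60) / (c / 60) = 60 / c * (n : ℝ) ^ (c / 60) := by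
      field_simp
    linarith
  have hl2 : 0 ≤ Real.log (2 * k) := Real.log_nonneg (by linarith)
  have h3 : 2 * (n : ℝ) ^ (1 - c / 3) * Real.log ((n * k + 1 : ℕ) : ℝ) ≤
      2 * (60 / c + Real.log (2 * k)) * (n : ℝ) ^ (1 - 19 * c / 60) := by
    have e1 : (n : ℝ) ^ (1 - c / 3) * (n : ℝ) ^ (c / 60) = (n : ℝ) ^ (1 - 19 * c / 60) := by
      rw [← Real.rpow_add hn0]; congr 1; ring
    have e2 : (n : ℝ) ^ (1 - c / 3) ≤ (n : ℝ) ^ (1 - 19 * c / 60) :=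
      Real.rpow_le_rpow_of_exponent_le hn1 (by linarith)
    have e3 : 0 ≤ (n : ℝ) ^ (1 - c / 3) := by positivity
    calc 2 * (n : ℝ) ^ (1 - c / 3) * Real.log ((n * k + 1 : ℕ) : ℝ)
        ≤ 2 * (n : ℝ) ^ (1 - c / 3) * (60 / c * (n : ℝ) ^ (c / 60) + Real.log (2 * k)) :=
          mul_le_mul_of_nonneg_left h2 (by positivity)
      _ = 2 * (60 / c) * ((n : ℝ) ^ (1 - c / 3) * (n : ℝ) ^ (c / 60)) +
            2 * Real.log (2 * k) * (n : ℝ) ^ (1 - c / 3) := by ring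
      _ ≤ 2 * (60 / c) * (n : ℝ) ^ (1 - 19 * c / 60) +
            2 * Real.log (2 * k) * (n : ℝ) ^ (1 - 19 * c / 60) := by
          rw [e1]
          have := mul_le_mul_of_nonneg_left e2 (show 0 ≤ 2 * Real.log (2 * k) by positivity)
          linarith
      _ = 2 * (60 / c + Real.log (2 * k)) * (n : ℝ) ^ (1 - 19 * c / 60) := by ring
  -- second factor
  have h4 : √(N * ((4 * (n : ℝ) ^ (-c)) * (2 * Real.log k))) ≤
      4 * √(Real.log k) * (n : ℝ) ^ (-(c / 3)) := by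
    apply Real.sqrt_le_iff.2
    refine ⟨by positivity, ?_⟩
    have e1 : (4 * √(Real.log k) * (n : ℝ) ^ (-(c / 3))) ^ 2 =
        16 * Real.log k * (n : ℝ) ^ (-(2 * c / 3)) := by
      rw [mul_pow, mul_pow, Real.sq_sqrt hlogk, ← Real.rpow_natCast ((n : ℝ) ^ (-(c / 3))),
        ← Real.rpow_mul hn0.le]
      have : -(c / 3) * ((2 : ℕ) : ℝ) = -(2 * c / 3) := by push_cast; ring
      rw [this]
      norm_num
    have e2 : (n : ℝ) ^ (c / 3) * (n : ℝ) ^ (-c) = (n : ℝ) ^ (-(2 * c / 3)) := by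
      rw [← Real.rpow_add hn0]; congr 1; ring
    rw [e1]
    calc (N : ℝ) * ((4 * (n : ℝ) ^ (-c)) * (2 * Real.log k))
        ≤ (2 * (n : ℝ) ^ (c / 3)) * ((4 * (n : ℝ) ^ (-c)) * (2 * Real.log k)) :=
          mul_le_mul_of_nonneg_right hNhi (by positivity)
      _ = 16 * Real.log k * ((n : ℝ) ^ (c / 3) * (n : ℝ) ^ (-c)) := by ring
      _ ≤ _ := by rw [e2]
  have h5 : 8 * (n * k * √(N * ((4 * (n : ℝ) ^ (-c)) * (2 * Real.log k)))) ≤
      32 * k * √(Real.log k) * (n : ℝ) ^ (1 - 19 * c / 60) := by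
    have e1 : (n : ℝ) * (n : ℝ) ^ (-(c / 3)) = (n : ℝ) ^ (1 - c / 3) := by
      nth_rw 1 [← Real.rpow_one (n : ℝ)]
      rw [← Real.rpow_add hn0]; congr 1
    have e2 : (n : ℝ) ^ (1 - c / 3) ≤ (n : ℝ) ^ (1 - 19 * c / 60) :=
      Real.rpow_le_rpow_of_exponent_le hn1 (by linarith)
    calc 8 * (n * k * √(N * ((4 * (n : ℝ) ^ (-c)) * (2 * Real.log k))))
        ≤ 8 * (n * k * (4 * √(Real.log k) * (n : ℝ) ^ (-(c / 3)))) := by gcongr
      _ = 32 * k * √(Real.log k) * ((n : ℝ) * (n : ℝ) ^ (-(c / 3))) := by ring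
      _ ≤ 32 * k * √(Real.log k) * (n : ℝ) ^ (1 - 19 * c / 60) := by
          rw [e1]; gcongr
  calc _ ≤ Real.exp (2 * (n : ℝ) ^ (1 - c / 3) * Real.log ((n * k + 1 : ℕ) : ℝ)) *
        Real.exp (8 * (n * k * √(N * ((4 * (n : ℝ) ^ (-c)) * (2 * Real.log k))))) :=
        mul_le_mul_of_nonneg_right h1 (Real.exp_pos _).le
    _ ≤ _ := by
        rw [← Real.exp_add]
        apply Real.exp_le_exp.2
        linarith

/-- asymptotics for AA2 -/
theorem evt2 (C c' c : ℝ) (hc' : 0 < c') (hc : 0 < c) (hc1 : c ≤ 1) :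
    ∃ n₀ : ℕ, 3 ≤ n₀ ∧ ∀ n : ℕ, n₀ ≤ n →
    C * (n : ℝ) ^ (1 - 19 * c / 60) ≤ (n : ℝ) ^ (1 - 3 * c / 10) ∧
    Real.exp (-(n : ℝ) ^ (1 - 3 * c / 10)) + 2 * Real.exp (-(c' * n)) ≤
      Real.exp (-(C * (n : ℝ) ^ (1 - 19 * c / 60))) := by
  have t1 : Tendsto (fun n : ℕ => (n : ℝ) ^ (c / 60)) atTop atTop :=
    (tendsto_rpow_atTop (by positivity)).comp tendsto_natCast_atTop_atTop
  have t2 : Tendsto (fun n : ℕ => (n : ℝ) ^ (1 - 3 * c / 10)) atTop atTop :=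
    (tendsto_rpow_atTop (by linarith)).comp tendsto_natCast_atTop_atTop
  have t3 : Tendsto (fun n : ℕ => (n : ℝ) ^ (3 * c / 10)) atTop atTop :=
    (tendsto_rpow_atTop (by positivity)).comp tendsto_natCast_atTop_atTop
  have ev := ((t1.eventually_ge_atTop (2 * |C|)).and
    ((t2.eventually_ge_atTop (2 * Real.log 2)).and (t3.eventually_ge_atTop (2 / c')))).and
      (eventually_ge_atTop 3)
  obtain ⟨n₁, hn₁⟩ := eventually_atTop.1 ev
  refine ⟨max n₁ 3, le_max_right _ _, fun n hn => ?_⟩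
  obtain ⟨⟨a1, a2, a3⟩, a4⟩ := hn₁ n ((le_max_left _ _).trans hn)
  have hn1 : (1 : ℝ) ≤ n := by exact_mod_cast (show 1 ≤ n by omega)
  have hn0 : (0 : ℝ) < n := by linarith
  set L := (n : ℝ) ^ (1 - 3 * c / 10) with hL
  set M := (n : ℝ) ^ (1 - 19 * c / 60) with hM
  have hM0 : 0 < M := by rw [hM]; positivity
  have hL0 : 0 < L := by rw [hL]; positivity
  have e1 : L = (n : ℝ) ^ (c / 60) * M := by
    rw [hL, hM, ← Real.rpow_add hn0]; congr 1; ring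
  have e2 : (n : ℝ) = (n : ℝ) ^ (3 * c / 10) * L := by
    rw [hL, ← Real.rpow_add hn0]
    have : 3 * c / 10 + (1 - 3 * c / 10) = 1 := by ring
    rw [this, Real.rpow_one]
  have b1 : C * M ≤ L / 2 := by
    have h1 : C * M ≤ |C| * M := mul_le_mul_of_nonneg_right (le_abs_self C) hM0.le
    have h2 : 2 * |C| * M ≤ L := by
      rw [e1]; exact mul_le_mul_of_nonneg_right a1 hM0.le
    linarith
  have b2 : 2 * L ≤ c' * n := by
    rw [e2]
    have : 2 / c' * L ≤ (n : ℝ) ^ (3 * c / 10) * L := mul_le_mul_of_nonneg_right a3 hL0.le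
    calc 2 * L = c' * (2 / c' * L) := by field_simp
      _ ≤ c' * ((n : ℝ) ^ (3 * c / 10) * L) := mul_le_mul_of_nonneg_left this hc'.le
  refine ⟨by linarith, ?_⟩
  have c1 : Real.exp (-(L / 2)) ≤ Real.exp (-(C * M)) := Real.exp_le_exp.2 (by linarith)
  have c2 : Real.exp (-(c' * n)) ≤ Real.exp (-(2 * L)) := Real.exp_le_exp.2 (by linarith)
  set u := Real.exp (-(L / 2)) with hu
  have hu0 : 0 < u := Real.exp_pos _
  have hu1 : u ≤ 1 / 2 := by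
    have : u ≤ Real.exp (-Real.log 2) := Real.exp_le_exp.2 (by linarith)
    rw [Real.exp_neg, Real.exp_log (by norm_num)] at this
    linarith
  have d1 : Real.exp (-L) = u ^ 2 := by
    rw [hu, ← Real.exp_nat_mul]; congr 1; push_cast; ring
  have d2 : Real.exp (-(2 * L)) = u ^ 4 := by
    rw [hu, ← Real.exp_nat_mul]; congr 1; push_cast; ring
  rw [d1]
  rw [d2] at c2
  have : u ^ 2 + 2 * u ^ 4 ≤ u := by
    have h1 : u ^ 2 ≤ 1 / 2 * u := by nlinarith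
    have h3 : u ^ 4 = u * (u * (u * u)) := by ring
    have h4 : u * (u * u) ≤ 1 / 8 := by
      have : u * u ≤ 1 / 4 := by nlinarith
      nlinarith
    have h5 : u ^ 4 ≤ 1 / 8 * u := by rw [h3]; nlinarith
    linarith
  linarith

/-- asymptotics for FIN2 -/
theorem evf2 (K c' c : ℝ) (hK : 0 < K) (hc' : 0 < c') (hc : 0 < c) (hc1 : c ≤ 1) :
    ∃ n₀ : ℕ, 1 ≤ n₀ ∧ ∀ n : ℕ, n₀ ≤ n →
    (n : ℝ) ^ (-(K + 1)) + Real.exp (-(3 * (n : ℝ) ^ (1 - 3 * c / 10))) +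
      2 * Real.exp (-(c' * n)) ≤ (n : ℝ) ^ (-K) := by
  have ha : 0 < 1 - 3 * c / 10 := by linarith
  have t2 : Tendsto (fun n : ℕ => (n : ℝ) ^ (1 - 3 * c / 10)) atTop atTop :=
    (tendsto_rpow_atTop ha).comp tendsto_natCast_atTop_atTop
  have t3 : Tendsto (fun n : ℕ => ((n : ℝ) ^ (1 - 3 * c / 10)) ^ ((K + 1) / (1 - 3 * c / 10)) *
      Real.exp (-3 * (n : ℝ) ^ (1 - 3 * c / 10))) atTop (nhds 0) :=
    (tendsto_rpow_mul_exp_neg_mul_atTop_nhds_zero ((K + 1) / (1 - 3 * c / 10)) 3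
      (by norm_num)).comp t2
  have t4 : Tendsto (fun n : ℕ => (n : ℝ) ^ (K + 1) * Real.exp (-c' * (n : ℝ))) atTop (nhds 0) :=
    (tendsto_rpow_mul_exp_neg_mul_atTop_nhds_zero (K + 1) c' hc').comp
      tendsto_natCast_atTop_atTop
  have ev := ((t3.eventually_lt_const (show (0 : ℝ) < 1 by norm_num)).and
    (t4.eventually_lt_const (show (0 : ℝ) < 1 by norm_num))).and (eventually_ge_atTop 4)
  obtain ⟨n₁, hn₁⟩ := eventually_atTop.1 ev
  refine ⟨max n₁ 1, le_max_right _ _, fun n hn => ?_⟩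
  obtain ⟨⟨a1, a2⟩, a3⟩ := hn₁ n ((le_max_left _ _).trans hn)
  have hn4 : (4 : ℝ) ≤ n := by exact_mod_cast a3
  have hn0 : (0 : ℝ) < n := by linarith
  have hP : 0 < (n : ℝ) ^ (K + 1) := by positivity
  have hpow : ((n : ℝ) ^ (1 - 3 * c / 10)) ^ ((K + 1) / (1 - 3 * c / 10)) =
      (n : ℝ) ^ (K + 1) := by
    rw [← Real.rpow_mul hn0.le, mul_div_cancel₀ _ ha.ne']
  rw [hpow] at a1
  have e0 : (n : ℝ) ^ (-(K + 1)) = 1 / (n : ℝ) ^ (K + 1) := by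
    rw [Real.rpow_neg hn0.le, one_div]
  have b1 : Real.exp (-(3 * (n : ℝ) ^ (1 - 3 * c / 10))) ≤ (n : ℝ) ^ (-(K + 1)) := by
    rw [e0, le_div_iff₀ hP]
    have : -3 * (n : ℝ) ^ (1 - 3 * c / 10) = -(3 * (n : ℝ) ^ (1 - 3 * c / 10)) := by ring
    rw [this] at a1
    linarith
  have b2 : Real.exp (-(c' * n)) ≤ (n : ℝ) ^ (-(K + 1)) := by
    rw [e0, le_div_iff₀ hP]
    have : -c' * (n : ℝ) = -(c' * n) := by ring
    rw [this] at a2
    linarith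
  have e1 : (n : ℝ) ^ (-K) = n * (n : ℝ) ^ (-(K + 1)) := by
    nth_rw 2 [← Real.rpow_one (n : ℝ)]
    rw [← Real.rpow_add hn0]
    congr 1
    ring
  have e2 : 0 < (n : ℝ) ^ (-(K + 1)) := by positivity
  rw [e1]
  nlinarith

end Run7.h932.RG
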