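import Pool.Agent.Run7.h932.RG.Stm

set_option autoImplicit false

/-!
# Project RG2 (MP_ef9bc2_co): edge probabilities `p x y ≤ n^(-c)` for every `c > 0`, if small sets
are sparse; failure probability `n^(-K)`; subgraphs with `m` edges of a host graph; removal of the
vertices of degree above `Δ`. Statements of the pieces.
-/

namespace Run7.h932.RG

open Finset Classical

/-- The matrix `p` of edge probabilities: symmetric, entries between `0` and `n^(-c)`, row sums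
at most `Δ`, and `∑ x ∈ U, ∑ y ∈ U, p x y ≤ n^(-γ) |U|` for `|U| ≤ 2 n^(1 - 3c/20)`. -/
structure Hyp2 {n : ℕ} (p : Fin n → Fin n → ℝ) (c γ Δ : ℝ) : Prop where
  nonneg : ∀ x y, 0 ≤ p x y
  small : ∀ x y, p x y ≤ (n : ℝ) ^ (-c)
  symm : ∀ x y, p x y = p y x
  deg : ∀ x, ∑ y, p x y ≤ Δ
  spot : ∀ U : Finset (Fin n), (U.card : ℝ) ≤ 2 * (n : ℝ) ^ (1 - 3 * c / 20) →
    ∑ x ∈ U, ∑ y ∈ U, p x y ≤ (n : ℝ) ^ (-γ) * U.card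

/-- Balanced colourings, with tolerance `T`. -/
def GoodT {n k : ℕ} (T : ℝ) (p : Fin n → Fin n → ℝ) (σ : Fin n → Fin k) : Prop :=
  (∀ x, (∑ y, if x ≠ y ∧ σ x = σ y then p x y else 0) ≤ (∑ y, p x y) / k + 1 / 2) ∧
    |Ps p σ - PP p / k| ≤ T

/-- BAL2 (as BAL, with `n^(-c)` in place of `n^(-9/10)` and tolerance `n^(1 - c/3)`). -/
def S_BAL2 : Prop := ∀ (c : ℝ) (k : ℕ) (Δ : ℝ), 0 < c → c ≤ 1 → 2 ≤ k → 0 < Δ →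
  ∃ n₀ : ℕ, ∀ n : ℕ, n₀ ≤ n → ∀ p : Fin n → Fin n → ℝ, (∀ x y, 0 ≤ p x y) →
    (∀ x y, p x y ≤ (n : ℝ) ^ (-c)) → (∀ x y, p x y = p y x) → (∀ x, ∑ y, p x y ≤ Δ) →
    (k : ℝ) ^ n ≤
      2 * ((univ.filter fun σ : Fin n → Fin k => GoodT ((n : ℝ) ^ (1 - c / 3)) p σ).card : ℝ)

/-- MOM12 (as MOM1, with `n^(-c)` in place of `n^(-9/10)`). -/
def S_MOM12 : Prop := ∀ c : ℝ, 0 < c → ∃ n₀ : ℕ, ∀ (n k : ℕ) (Δ : ℝ) (p : Fin n → Fin n → ℝ)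
  (σ : Fin n → Fin k), n₀ ≤ n → 2 ≤ k → (∀ x y, 0 ≤ p x y) →
    (∀ x y, p x y ≤ (n : ℝ) ^ (-c)) → (∀ x, ∑ y, p x y ≤ Δ) →
  Real.exp ((PP p - k * Ps p σ) / (k - 1) - (n : ℝ) ^ (1 - c) * Δ) ≤
    ∑ ω, mu p ω * ((if Prp ω σ then 1 else 0) * ((k : ℝ) / (k - 1)) ^ ms ω)

/-- CH2 (as CH, with weaker hypotheses). -/
def S_CH2 : Prop := ∀ Δ : ℝ, 0 < Δ → ∃ c : ℝ, 0 < c ∧ ∀ (n : ℕ) (p : Fin n → Fin n → ℝ), 1 ≤ n →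
  (∀ x y, 0 ≤ p x y) → (∀ x y, p x y ≤ 1) → (∀ x, ∑ y, p x y ≤ Δ) →
  ∑ ω ∈ univ.filter fun ω => (n : ℝ) ≤ |(ms ω : ℝ) - PP p|, mu p ω ≤ 2 * Real.exp (-(c * n))

/-- AA2. -/
def S_AA2 : Prop := ∀ (c : ℝ) (k : ℕ) (Δ : ℝ), 0 < c → c ≤ 1 → 3000 ≤ k → 0 < Δ →
  ((k : ℝ) / (k - 1)) ^ 2 * (Δ / k + 1 / 2) ≤ 2 * Real.log k - 2 →
  ∃ n₀ : ℕ, ∀ n : ℕ, n₀ ≤ n → ∀ p : Fin n → Fin n → ℝ, (∀ x y, 0 ≤ p x y) →
    (∀ x y, p x y ≤ (n : ℝ) ^ (-c)) → (∀ x y, p x y = p y x) → (∀ x, ∑ y, p x y ≤ Δ) →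
    ∃ A : Finset (Fin n → Fin n → Bool),
      Real.exp (-(n : ℝ) ^ (1 - 3 * c / 10)) ≤ ∑ ω ∈ A, mu p ω ∧
      ∀ ω ∈ A, (ms ω : ℝ) ≤ PP p + n ∧
        (1 - 1 / (k : ℝ)) ^ ms ω * ((k : ℝ) ^ n * Real.exp (-(n : ℝ) ^ (1 - 3 * c / 10))) ≤
          ((cols k ω).card : ℝ)

/-- SPA2: small sets span few edges. Hint: for `|U| = s` the expectation of `exp (t e(U))` is at
most `exp (n^(-γ) s/2 * (exp t - 1))`; take `exp t = n^γ`; the number of the sets `U` of size `s`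
is at most `n^s`; so the probability is at most `∑ s ≥ 1, exp (s (log n + 1/2 - γ r log n / 2))`,
which is at most `n^(-K)` if `γ r / 2 ≥ K + 3`. -/
def S_SPA2 : Prop := ∀ (c γ K : ℝ), 0 < c → c ≤ 1 → 0 < γ → 0 < K → ∃ r₀ : ℕ, ∀ r : ℕ, r₀ ≤ r →
  ∃ n₀ : ℕ, ∀ n : ℕ, n₀ ≤ n → ∀ p : Fin n → Fin n → ℝ, (∀ x y, 0 ≤ p x y) →
    (∀ x y, p x y ≤ 1) → (∀ x y, p x y = p y x) →
    (∀ U : Finset (Fin n), (U.card : ℝ) ≤ 2 * (n : ℝ) ^ (1 - 3 * c / 20) →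
      ∑ x ∈ U, ∑ y ∈ U, p x y ≤ (n : ℝ) ^ (-γ) * U.card) →
    ∑ ω ∈ univ.filter fun ω => ∃ U : Finset (Fin n), U.Nonempty ∧
      (U.card : ℝ) ≤ 2 * (n : ℝ) ^ (1 - 3 * c / 20) ∧ r * U.card ≤ 2 * eU ω U, mu p ω ≤
    (n : ℝ) ^ (-K)

/-- DEG2. -/
def S_DEG2 : Prop := ∀ (r n : ℕ) (ω : Fin n → Fin n → Bool) (X : Finset (Fin n)), 1 ≤ r →
  (∀ U ⊆ X, U.Nonempty → 2 * eU ω U < r * U.card) →
  ∃ c : Fin n → Fin r, ∀ x ∈ X, ∀ y ∈ X, x < y → ω y x = true → c x ≠ c y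

/-- EXT2. -/
def S_EXT2 : Prop := ∀ (r n k : ℕ) (ω ω' : Fin n → Fin n → Bool) (X : Finset (Fin n)),
  (∀ y, y ∉ X → ω y = ω' y) →
  (∃ c : Fin n → Fin r, ∀ x ∈ X, ∀ y ∈ X, x < y → ω y x = true → c x ≠ c y) →
  (cols k ω').card ≤ k ^ X.card * (cols (k + r) ω).card

/-- NUM2: numbers, for the range of Q1. -/
def S_NUM2 : Prop := ∀ (ε η c : ℝ) (r : ℕ), 0 < ε → 0 < η → η < 1 → 0 < c → c ≤ 1 →
  ∃ Δ₀ : ℕ, ∀ Δ q : ℕ, Δ₀ ≤ Δ → (1 / 2 + ε) * (Δ / Real.log Δ) ≤ q →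
  1 ≤ Δ ∧ 3000 ≤ q - r ∧
  ((((q - r : ℕ) : ℝ) / (((q - r : ℕ) : ℝ) - 1)) ^ 2 * (Δ / ((q - r : ℕ) : ℝ) + 1 / 2) ≤
    2 * Real.log ((q - r : ℕ) : ℝ) - 2) ∧
  ∃ n₀ : ℕ, ∀ n m m' x : ℕ, n₀ ≤ n → m' ≤ m + 2 * n → (m : ℝ) ≤ ((Δ : ℝ) / 2 + 1) * n →
    (x : ℝ) ≤ 2 * (n : ℝ) ^ (1 - 3 * c / 20) →
    (1 - 1 / (q : ℝ)) ^ m * ((1 - η) * q) ^ n * ((q - r : ℕ) : ℝ) ^ x ≤
      (1 - 1 / ((q - r : ℕ) : ℝ)) ^ m' *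
        (((q - r : ℕ) : ℝ) ^ n * Real.exp (-(n : ℝ) ^ (1 - 3 * c / 10)))

/-- FIN2: the main count. -/
def S_FIN2 : Prop := ∀ (ε η c γ K : ℝ), 0 < ε → 0 < η → η < 1 → 0 < c → c ≤ 1 → 0 < γ → 0 < K →
  ∃ Δ₀ : ℕ, ∀ Δ q : ℕ, Δ₀ ≤ Δ → (1 / 2 + ε) * (Δ / Real.log Δ) ≤ q →
  ∃ n₀ : ℕ, ∀ n : ℕ, n₀ ≤ n → ∀ p : Fin n → Fin n → ℝ, Hyp2 p c γ Δ →
    ∑ ω ∈ univ.filter fun ω => ¬ Bound (gr ω) q η, mu p ω ≤ (n : ℝ) ^ (-K)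

/-- The degree of `x` in `gr ω`. -/
noncomputable def dg {n : ℕ} (ω : Fin n → Fin n → Bool) (x : Fin n) : ℕ :=
  (univ.filter fun y => (gr ω).Adj x y).card

/-- HD: few vertices of large degree. Hint: let `d = ⌈n / Δ^2⌉`; for a set `D` of `d` vertices the
sum of the degrees in `D` is a sum over the edges with coefficients `0, 1, 2`, so the expectation
of `exp (t ∑ x ∈ D, dg x)` is at most `exp ((1 + 2 t) t (1 - ε) Δ d)` for `0 < t ≤ 1/2`; with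
`t = ε/4` the probability that the sum is at least `Δ d` is at most `exp (- ε² Δ d / 8)`, and the
number of the sets `D` is at most `(e n / d)^d ≤ (e Δ^2)^d`. If no set `D` of size `d` has sum
`≥ Δ d`, then fewer than `d` vertices have degree `> Δ`, and their degrees sum up to less than
`Δ d ≤ n / Δ + Δ ≤ n`. -/
def S_HD : Prop := ∀ ε : ℝ, 0 < ε → ε < 1 → ∃ Δ₀ : ℕ, ∀ Δ : ℕ, Δ₀ ≤ Δ → ∀ K : ℝ, 0 < K →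
  ∃ n₀ : ℕ, ∀ n : ℕ, n₀ ≤ n → ∀ p : Fin n → Fin n → ℝ, (∀ x y, 0 ≤ p x y) →
    (∀ x y, p x y ≤ 1) → (∀ x y, p x y = p y x) → (∀ x, ∑ y, p x y ≤ (1 - ε) * Δ) →
    ∑ ω ∈ univ.filter fun ω => ¬ (((univ.filter fun x => Δ < dg ω x).card : ℝ) ≤ n / (Δ : ℝ) ^ 2 ∧
      ((∑ x ∈ univ.filter fun x => Δ < dg ω x, dg ω x : ℕ) : ℝ) ≤ n), mu p ω ≤ (n : ℝ) ^ (-K)

/-- TRIM: removing a set of vertices with few incident edges. Hint: restriction of colourings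
shows `c(G, q) ≤ q^|D| c(G - D, q)`, and `m(G) ≤ m(G - D) + n`. -/
def S_TRIM : Prop := ∀ (η : ℝ) (q n : ℕ) (G : SimpleGraph (Fin n)) (D : Set (Fin n)), 0 < η →
  η < 1 → 4 / η ≤ q → 2 * D.ncard ≤ n → ∑ x ∈ univ.filter (fun x => x ∈ D),
    (univ.filter fun y => G.Adj x y).card ≤ n → Bound G q (η / 4) → Bound (G.induce Dᶜ) q η

/-- MODE: the binomial distribution at its mean. -/
def S_MODE : Prop := ∀ e m : ℕ, m ≤ e →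
  1 ≤ ((e : ℝ) + 1) * (e.choose m) * ((m : ℝ) / e) ^ m * (1 - (m : ℝ) / e) ^ (e - m)

/-- HOST: from independent edges to subgraphs with `m` edges (`P` any property of graphs). -/
def S_HOST : Prop := ∀ (n : ℕ) (F : SimpleGraph (Fin n)) (m : ℕ) (P : SimpleGraph (Fin n) → Prop),
  m ≤ F.edgeSet.ncard →
  ({E : Set (Sym2 (Fin n)) | E ⊆ F.edgeSet ∧ E.ncard = m ∧
      P (SimpleGraph.fromEdgeSet E)}.ncard : ℝ) ≤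
    ((F.edgeSet.ncard : ℝ) + 1) * (F.edgeSet.ncard.choose m) *
      ∑ G ∈ univ.filter fun G => P G,
        WG (fun x y => if F.Adj x y then (m : ℝ) / F.edgeSet.ncard else 0) G

end Run7.h932.RG
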