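import Pool.Agent.Run7.h932.RG.AA
import Pool.Agent.Run7.h932.RG.Stm2
import Pool.Agent.Run7.h932.RG.AAnum2

set_option autoImplicit false

namespace Run7.h932.RG

open Finset Classical

/-- the sum over the second colouring -/
theorem second2 (hMF : S_MF) {n k : ℕ} {p : Fin n → Fin n → ℝ} {Δ c T : ℝ} (hc : 0 < c)
    (hn : 1 ≤ n)
    (hk : 3000 ≤ k) (hp0 : ∀ x y, 0 ≤ p x y) (hpc : ∀ x y, p x y ≤ (n : ℝ) ^ (-c))
    (hps : ∀ x y, p x y = p y x) (hpd : ∀ x, ∑ y, p x y ≤ Δ)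
    (hcond : ((k : ℝ) / (k - 1)) ^ 2 * (Δ / k + 1 / 2) ≤ 2 * Real.log k - 2)
    (σ : Fin n → Fin k) (hσ : GoodT T p σ) :
    ∑ τ : Fin n → Fin k, Real.exp (((k : ℝ) / (k - 1)) ^ 2 * Pst p σ τ) ≤
      Real.exp ((2 * (60 / c + Real.log (2 * k)) + 32 * k * √(Real.log k)) *
        (n : ℝ) ^ (1 - 19 * c / 60)) *
      ((k : ℝ) ^ n * Real.exp (((k : ℝ) / (k - 1)) ^ 2 * Ps p σ / k)) := by
  have hkR : (3000 : ℝ) ≤ k := by exact_mod_cast hk
  have hk0 : (0 : ℝ) < k := by linarith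
  have hk1 : (0 : ℝ) < k - 1 := by linarith
  have hn1 : (1 : ℝ) ≤ n := by exact_mod_cast hn
  have hn0 : (0 : ℝ) < n := by linarith
  set a : ℝ := ((k : ℝ) / (k - 1)) ^ 2 with ha
  have ha0 : 0 < a := by rw [ha]; positivity
  have ha4 : a ≤ 4 := by
    rw [ha]
    have : (k : ℝ) / (k - 1) ≤ 2 := by rw [div_le_iff₀ hk1]; linarith
    have h0 : 0 ≤ (k : ℝ) / (k - 1) := by positivity
    nlinarith
  set w : Fin n → Fin n → ℝ := fun x y => if x ≠ y ∧ σ x = σ y then a * p x y else 0 with hw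
  have w0 : ∀ x y, 0 ≤ w x y := by
    intro x y; rw [hw]; dsimp only
    split_ifs
    · exact mul_nonneg ha0.le (hp0 x y)
    · exact le_rfl
  have ws : ∀ x y, w x y = w y x := by
    intro x y; rw [hw]; dsimp only
    by_cases h : x ≠ y ∧ σ x = σ y
    · rw [if_pos h, if_pos ⟨h.1.symm, h.2.symm⟩, hps]
    · rw [if_neg h, if_neg (fun h' => h ⟨h'.1.symm, h'.2.symm⟩)]
  have wP : ∀ x y, w x y ≤ 4 * (n : ℝ) ^ (-c) := by
    intro x y; rw [hw]; dsimp only
    split_ifs
    · exact mul_le_mul ha4 (hpc x y) (hp0 x y) (by norm_num)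
    · positivity
  have wb : ∀ x, ∑ y, w x y ≤ 2 * Real.log k - 2 := by
    intro x
    have e1 : ∑ y, w x y = a * ∑ y, (if x ≠ y ∧ σ x = σ y then p x y else 0) := by
      rw [Finset.mul_sum]
      refine Finset.sum_congr rfl fun y _ => ?_
      rw [hw]; dsimp only
      split_ifs <;> simp
    rw [e1]
    refine le_trans (mul_le_mul_of_nonneg_left ?_ ha0.le) hcond
    refine (hσ.1 x).trans ?_
    have := hpd x
    have := div_le_div_of_nonneg_right this hk0.le
    linarith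
  have hN : 1 ≤ ⌈(n : ℝ) ^ (c / 3)⌉₊ := Nat.one_le_ceil_iff.2 (by positivity)
  have h := hMF n k ⌈(n : ℝ) ^ (c / 3)⌉₊ w (4 * (n : ℝ) ^ (-c)) hn hk hN
    (by positivity) w0 ws wP wb
  -- the energies
  have en : ∀ τ : Fin n → Fin k,
      1 / 2 * (∑ x, ∑ y, if τ x = τ y then w x y else 0) = a * Pst p σ τ := by
    intro τ
    rw [half_sum (fun x y => if τ x = τ y then w x y else 0) ?_ ?_]
    · have : (∑ y, ∑ x, if x < y then (if τ x = τ y then w x y else 0) else 0) =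
          a * Pst p σ τ := by
        unfold Pst
        rw [Finset.mul_sum]
        refine Finset.sum_congr rfl fun y _ => ?_
        rw [Finset.mul_sum]
        refine Finset.sum_congr rfl fun x _ => ?_
        rw [hw]; dsimp only
        by_cases h1 : x < y
        · by_cases h2 : τ x = τ y
          · by_cases h3 : σ x = σ y
            · rw [if_pos h1, if_pos h2, if_pos ⟨h1.ne, h3⟩, if_pos ⟨h1, h3, h2⟩]
            · rw [if_pos h1, if_pos h2, if_neg (fun h' => h3 h'.2),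
                if_neg (fun h' => h3 h'.2.1), mul_zero]
          · rw [if_pos h1, if_neg h2, if_neg (fun h' => h2 h'.2.2), mul_zero]
        · rw [if_neg h1, if_neg (fun h' => h1 h'.1), mul_zero]
      rw [this]; ring
    · intro x y
      by_cases h1 : τ x = τ y
      · rw [if_pos h1, if_pos h1.symm, ws]
      · rw [if_neg h1, if_neg (fun h' => h1 h'.symm)]
    · intro x; rw [hw]; dsimp only; simp
  have tot : ∑ x, ∑ y, w x y = 2 * (a * Ps p σ) := by
    rw [half_sum w ws (fun x => by rw [hw]; simp)]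
    congr 1
    unfold Ps
    rw [Finset.mul_sum]
    refine Finset.sum_congr rfl fun y _ => ?_
    rw [Finset.mul_sum]
    refine Finset.sum_congr rfl fun x _ => ?_
    rw [hw]; dsimp only
    by_cases h1 : x < y
    · by_cases h3 : σ x = σ y
      · rw [if_pos h1, if_pos ⟨h1.ne, h3⟩, if_pos ⟨h1, h3⟩]
      · rw [if_pos h1, if_neg (fun h' => h3 h'.2), if_neg (fun h' => h3 h'.2), mul_zero]
    · rw [if_neg h1, if_neg (fun h' => h1 h'.1), mul_zero]
  simp only [en] at h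
  rw [tot] at h
  refine h.trans ?_
  have e3 : 2 * (a * Ps p σ) / (2 * (k : ℝ)) = a * Ps p σ / k := by field_simp
  rw [e3]
  exact mul_le_mul_of_nonneg_right (loss2 c hc k n (by omega) hn) (by positivity)

theorem t_AA2 (hMF : S_MF) (hTOT : S_TOT) (hBAL : S_BAL2) (hM1' : S_MOM12) (hM2 : S_MOM2)
    (hPZ : S_PZ) (hCH : S_CH2) : S_AA2 := by
  intro c k Δ hc hc1 hk hΔ hcond
  have hkR : (3000 : ℝ) ≤ k := by exact_mod_cast hk
  have hk0 : (0 : ℝ) < k := by linarith
  have hk1 : (0 : ℝ) < k - 1 := by linarith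
  obtain ⟨c', hc', hCH⟩ := hCH Δ hΔ
  obtain ⟨n₁, hBAL⟩ := hBAL c k Δ hc hc1 (by omega) hΔ
  obtain ⟨n₃, hM1'⟩ := hM1' c hc
  set a : ℝ := ((k : ℝ) / (k - 1)) ^ 2 with ha
  have hr0 : 0 < (k : ℝ) / (k - 1) := by positivity
  have hr2 : (k : ℝ) / (k - 1) ≤ 2 := by rw [div_le_iff₀ hk1]; linarith
  have ha0 : 0 < a := by rw [ha]; positivity
  have ha4 : a ≤ 4 := by rw [ha]; nlinarith
  set Cl : ℝ := 2 * (60 / c + Real.log (2 * k)) + 32 * k * √(Real.log k) with hCl
  have hCl0 : 0 ≤ Cl := by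
    have h1 : 0 ≤ Real.log (2 * k) := Real.log_nonneg (by linarith)
    rw [hCl]; positivity
  -- the total constant
  set C : ℝ := Real.log 16 + 2 * (2 + Δ) + 12 + Cl with hC
  obtain ⟨n₂, hn₂, hev⟩ := evt2 C c' c hc' hc hc1
  refine ⟨max (max n₁ n₂) n₃, fun n hn p hp0 hpc hps hpd => ?_⟩
  have hnn1 : n₁ ≤ n := ((le_max_left _ _).trans (le_max_left _ _)).trans hn
  have hnn2 : n₂ ≤ n := ((le_max_right _ _).trans (le_max_left _ _)).trans hn
  have hnn3 : n₃ ≤ n := (le_max_right _ _).trans hn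
  have hn3 : 3 ≤ n := hn₂.trans hnn2
  have hn1 : (1 : ℝ) ≤ n := by exact_mod_cast (show 1 ≤ n by omega)
  have hn0 : (0 : ℝ) < n := by linarith
  obtain ⟨ev1, ev2⟩ := hev n hnn2
  have hp1 : ∀ x y, p x y ≤ 1 := fun x y => (hpc x y).trans
    (Real.rpow_le_one_of_one_le_of_nonpos hn1 (by linarith))
  obtain ⟨mu0, mu1⟩ := hTOT n p hp0 hp1
  set M : ℝ := (n : ℝ) ^ (1 - 19 * c / 60) with hM
  have hM1 : 1 ≤ M := by rw [hM]; exact Real.one_le_rpow hn1 (by linarith)
  set s : ℝ := (n : ℝ) ^ (1 - c / 3) with hs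
  have hs0 : 0 ≤ s := by rw [hs]; positivity
  have hsM : s ≤ M := Real.rpow_le_rpow_of_exponent_le hn1 (by linarith)
  have htM : (n : ℝ) ^ (1 - c) ≤ M := Real.rpow_le_rpow_of_exponent_le hn1 (by linarith)
  set GG : Finset (Fin n → Fin k) := univ.filter fun σ => GoodT s p σ with hGG
  have hGcard : (k : ℝ) ^ n ≤ 2 * (GG.card : ℝ) := hBAL n hnn1 p hp0 hpc hps hpd
  have hGle : (GG.card : ℝ) ≤ (k : ℝ) ^ n := by
    have : GG.card ≤ (univ : Finset (Fin n → Fin k)).card := Finset.card_filter_le _ _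
    rw [Finset.card_univ, Fintype.card_fun, Fintype.card_fin, Fintype.card_fin] at this
    exact_mod_cast this
  set Y : (Fin n → Fin k) → (Fin n → Fin n → Bool) → ℝ := fun σ ω =>
    (if Prp ω σ then 1 else 0) * ((k : ℝ) / (k - 1)) ^ ms ω with hY
  set X : (Fin n → Fin n → Bool) → ℝ := fun ω => ∑ σ ∈ GG, Y σ ω with hX
  have hY0 : ∀ σ ω, 0 ≤ Y σ ω := by
    intro σ ω; rw [hY]; dsimp only
    split_ifs <;> positivity
  have hX0 : ∀ ω, 0 ≤ X ω := fun ω => Finset.sum_nonneg fun σ _ => hY0 σ ω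
    -- first moment
  have hGoodlow : ∀ σ ∈ GG, PP p / k - s ≤ Ps p σ ∧ Ps p σ ≤ PP p / k + s := by
    intro σ hσ
    have h1 := (mem_filter.1 hσ).2.2
    rw [abs_le] at h1
    constructor <;> linarith [h1.1, h1.2]
  have hEX : (k : ℝ) ^ n / 2 * Real.exp (-((2 + Δ) * M)) ≤ ∑ ω, mu p ω * X ω := by
    have e1 : ∑ ω, mu p ω * X ω = ∑ σ ∈ GG, ∑ ω, mu p ω * Y σ ω := by
      rw [hX]; dsimp only
      rw [Finset.sum_comm]
      exact Finset.sum_congr rfl fun ω _ => by rw [Finset.mul_sum]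
    rw [e1]
    have e2 : ∀ σ ∈ GG, Real.exp (-((2 + Δ) * M)) ≤ ∑ ω, mu p ω * Y σ ω := by
      intro σ hσ
      refine le_trans ?_ (hM1' n k Δ p σ hnn3 (by omega) hp0 hpc hpd)
      apply Real.exp_le_exp.2
      have h1 := (hGoodlow σ hσ).2
      have h2 : -(2 * s) ≤ (PP p - k * Ps p σ) / (k - 1) := by
        rw [le_div_iff₀ hk1]
        have : k * Ps p σ ≤ PP p + k * s := by
          calc (k : ℝ) * Ps p σ ≤ k * (PP p / k + s) := mul_le_mul_of_nonneg_left h1 hk0.le
            _ = PP p + k * s := by field_simp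
        nlinarith
      nlinarith [mul_le_mul_of_nonneg_left htM hΔ.le]
    calc (k : ℝ) ^ n / 2 * Real.exp (-((2 + Δ) * M))
        ≤ (GG.card : ℝ) * Real.exp (-((2 + Δ) * M)) :=
          mul_le_mul_of_nonneg_right (by linarith) (Real.exp_pos _).le
      _ = ∑ σ ∈ GG, Real.exp (-((2 + Δ) * M)) := by rw [Finset.sum_const, nsmul_eq_mul]
      _ ≤ _ := Finset.sum_le_sum e2
  -- second moment
  have hEX2 : ∑ ω, mu p ω * X ω ^ 2 ≤
      (k : ℝ) ^ n * (k : ℝ) ^ n * Real.exp ((12 + Cl) * M) := by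
    have e1 : ∑ ω, mu p ω * X ω ^ 2 =
        ∑ σ ∈ GG, ∑ τ ∈ GG, ∑ ω, mu p ω * (Y σ ω * Y τ ω) := by
      have : ∀ ω, mu p ω * X ω ^ 2 = ∑ σ ∈ GG, ∑ τ ∈ GG, mu p ω * (Y σ ω * Y τ ω) := by
        intro ω
        rw [hX]; dsimp only
        rw [pow_two, Finset.sum_mul_sum, Finset.mul_sum]
        exact Finset.sum_congr rfl fun σ _ => by rw [Finset.mul_sum]
      rw [Finset.sum_congr rfl fun ω _ => this ω, Finset.sum_comm]
      refine Finset.sum_congr rfl fun σ _ => ?_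
      rw [Finset.sum_comm]
    rw [e1]
    have hid : a - 1 - 2 * a / k = -(a / (k : ℝ) ^ 2) := by
      rw [ha]
      field_simp
      ring
    have e2 : ∀ σ ∈ GG, ∑ τ ∈ GG, ∑ ω, mu p ω * (Y σ ω * Y τ ω) ≤
        (k : ℝ) ^ n * Real.exp ((12 + Cl) * M) := by
      intro σ hσ
      have hσ1 := hGoodlow σ hσ
      have e3 : ∀ τ ∈ GG, ∑ ω, mu p ω * (Y σ ω * Y τ ω) ≤
          Real.exp (2 * a * s - a * PP p / k ^ 2) * Real.exp (a * Pst p σ τ) := by
        intro τ hτ
        refine (‹S_MOM2› n k p σ τ (by omega) hp0 hp1).trans ?_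
        rw [← Real.exp_add]
        apply Real.exp_le_exp.2
        have h1 := (hGoodlow σ hσ).1
        have h2 := (hGoodlow τ hτ).1
        have h3 : a * (2 * (PP p / k) - 2 * s) ≤ a * (Ps p σ + Ps p τ) :=
          mul_le_mul_of_nonneg_left (by linarith) ha0.le
        have h4 : (a - 1) * PP p - 2 * a / k * PP p = -(a / (k : ℝ) ^ 2) * PP p := by
          rw [← hid]; ring
        have h5 : a * (2 * (PP p / k) - 2 * s) = 2 * a / k * PP p - 2 * a * s := by ring
        have h6 : -(a / (k : ℝ) ^ 2) * PP p = -(a * PP p / k ^ 2) := by ring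
        linarith
      have e4 := second2 hMF hc (show 1 ≤ n by omega) hk hp0 hpc hps hpd hcond σ (mem_filter.1 hσ).2
      calc ∑ τ ∈ GG, ∑ ω, mu p ω * (Y σ ω * Y τ ω)
          ≤ ∑ τ ∈ GG, Real.exp (2 * a * s - a * PP p / k ^ 2) * Real.exp (a * Pst p σ τ) :=
            Finset.sum_le_sum e3
        _ ≤ ∑ τ : Fin n → Fin k,
              Real.exp (2 * a * s - a * PP p / k ^ 2) * Real.exp (a * Pst p σ τ) :=
            Finset.sum_le_univ_sum_of_nonneg fun τ => by positivity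
        _ = Real.exp (2 * a * s - a * PP p / k ^ 2) *
              ∑ τ : Fin n → Fin k, Real.exp (a * Pst p σ τ) := by rw [Finset.mul_sum]
        _ ≤ Real.exp (2 * a * s - a * PP p / k ^ 2) *
              (Real.exp (Cl * M) * ((k : ℝ) ^ n * Real.exp (a * Ps p σ / k))) :=
            mul_le_mul_of_nonneg_left e4 (Real.exp_pos _).le
        _ = (k : ℝ) ^ n * Real.exp (2 * a * s - a * PP p / k ^ 2 + Cl * M +
              a * Ps p σ / k) := by
            rw [Real.exp_add, Real.exp_add]; ring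
        _ ≤ (k : ℝ) ^ n * Real.exp ((12 + Cl) * M) := by
            refine mul_le_mul_of_nonneg_left (Real.exp_le_exp.2 ?_) (by positivity)
            have h1 : a * Ps p σ / k ≤ a * PP p / k ^ 2 + a * s / k := by
              calc a * Ps p σ / k ≤ a * (PP p / k + s) / k :=
                    div_le_div_of_nonneg_right
                      (mul_le_mul_of_nonneg_left hσ1.2 ha0.le) hk0.le
                _ = a * PP p / k ^ 2 + a * s / k := by field_simp
            have h2 : a * s / k ≤ a * s := div_le_self (by positivity) (by linarith)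
            have h3 : a * s ≤ 4 * M :=
              mul_le_mul ha4 hsM hs0 (by norm_num)
            linarith
    calc ∑ σ ∈ GG, ∑ τ ∈ GG, ∑ ω, mu p ω * (Y σ ω * Y τ ω)
        ≤ ∑ σ ∈ GG, (k : ℝ) ^ n * Real.exp ((12 + Cl) * M) := Finset.sum_le_sum e2
      _ = (GG.card : ℝ) * ((k : ℝ) ^ n * Real.exp ((12 + Cl) * M)) := by
          rw [Finset.sum_const, nsmul_eq_mul]
      _ ≤ (k : ℝ) ^ n * ((k : ℝ) ^ n * Real.exp ((12 + Cl) * M)) :=
          mul_le_mul_of_nonneg_right hGle (by positivity)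
      _ = _ := by ring
  -- Paley-Zygmund
  set c0 : ℝ := (k : ℝ) ^ n / 4 * Real.exp (-((2 + Δ) * M)) with hc0
  have hc00 : 0 ≤ c0 := by rw [hc0]; positivity
  have hpz := hPZ _ (mu p) X c0 mu0 mu1 hX0 (by rw [hc0]; linarith) hc00
  set A0 : Finset (Fin n → Fin n → Bool) := univ.filter fun ω => c0 ≤ X ω with hA0
  set mA0 : ℝ := ∑ ω ∈ A0, mu p ω with hmA0
  have hmA00 : 0 ≤ mA0 := Finset.sum_nonneg fun ω _ => mu0 ω
  have hlow : Real.exp (-(C * M)) ≤ mA0 := by
    have hkn : 0 < (k : ℝ) ^ n := by positivity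
    have h1 : ((k : ℝ) ^ n / 2 * Real.exp (-((2 + Δ) * M))) ^ 2 ≤
        4 * ((k : ℝ) ^ n * (k : ℝ) ^ n * Real.exp ((12 + Cl) * M)) * mA0 := by
      calc ((k : ℝ) ^ n / 2 * Real.exp (-((2 + Δ) * M))) ^ 2 ≤ (∑ ω, mu p ω * X ω) ^ 2 :=
            pow_le_pow_left₀ (by positivity) hEX 2
        _ ≤ _ := hpz
        _ ≤ _ := by
            refine mul_le_mul_of_nonneg_right ?_ hmA00
            linarith
    have h2 : Real.exp (-((2 + Δ) * M)) ^ 2 ≤ 16 * Real.exp ((12 + Cl) * M) * mA0 := by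
      have e : ((k : ℝ) ^ n / 2 * Real.exp (-((2 + Δ) * M))) ^ 2 =
          ((k : ℝ) ^ n * (k : ℝ) ^ n) * (Real.exp (-((2 + Δ) * M)) ^ 2 / 4) := by ring
      rw [e] at h1
      have e2 : 4 * ((k : ℝ) ^ n * (k : ℝ) ^ n * Real.exp ((12 + Cl) * M)) * mA0 =
          ((k : ℝ) ^ n * (k : ℝ) ^ n) * (4 * Real.exp ((12 + Cl) * M) * mA0) := by ring
      rw [e2] at h1
      have := le_of_mul_le_mul_left h1 (by positivity)
      linarith
    have h3 : Real.exp (-((2 + Δ) * M)) ^ 2 = Real.exp (-(2 * (2 + Δ) * M)) := by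
      rw [← Real.exp_nat_mul]; congr 1; push_cast; ring
    rw [h3] at h2
    have h4 : Real.exp (-(2 * (2 + Δ) * M)) * Real.exp (-((12 + Cl) * M)) ≤ 16 * mA0 := by
      calc Real.exp (-(2 * (2 + Δ) * M)) * Real.exp (-((12 + Cl) * M))
          ≤ (16 * Real.exp ((12 + Cl) * M) * mA0) * Real.exp (-((12 + Cl) * M)) :=
            mul_le_mul_of_nonneg_right h2 (Real.exp_pos _).le
        _ = 16 * mA0 * (Real.exp ((12 + Cl) * M) * Real.exp (-((12 + Cl) * M))) := by ring
        _ = 16 * mA0 := by rw [← Real.exp_add, add_neg_cancel, Real.exp_zero, mul_one]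
    have h5 : Real.exp (-(C * M)) ≤
        1 / 16 * (Real.exp (-(2 * (2 + Δ) * M)) * Real.exp (-((12 + Cl) * M))) := by
      have e16 : (1 : ℝ) / 16 = Real.exp (-Real.log 16) := by
        rw [Real.exp_neg, Real.exp_log (by norm_num)]; norm_num
      rw [e16, ← Real.exp_add, ← Real.exp_add]
      apply Real.exp_le_exp.2
      have hl16 : 0 ≤ Real.log 16 := Real.log_nonneg (by norm_num)
      have g1 : C * M = Real.log 16 * M + 2 * (2 + Δ) * M + (12 + Cl) * M := by rw [hC]; ring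
      have g2 : Real.log 16 ≤ Real.log 16 * M := le_mul_of_one_le_right hl16 hM1
      linarith
    linarith
  -- the set
  refine ⟨A0.filter fun ω => (ms ω : ℝ) ≤ PP p + n, ?_, ?_⟩
  · have hch := hCH n p (by omega) hp0 hp1 hpd
    have hsplit : mA0 ≤ (∑ ω ∈ A0.filter fun ω => (ms ω : ℝ) ≤ PP p + n, mu p ω) +
        ∑ ω ∈ univ.filter fun ω => (n : ℝ) ≤ |(ms ω : ℝ) - PP p|, mu p ω := by
      rw [hmA0, ← Finset.sum_filter_add_sum_filter_not A0 (fun ω => (ms ω : ℝ) ≤ PP p + n)]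
      refine add_le_add le_rfl ?_
      refine Finset.sum_le_sum_of_subset_of_nonneg ?_ (fun ω _ _ => mu0 ω)
      intro ω hω
      rw [mem_filter] at hω ⊢
      refine ⟨mem_univ _, ?_⟩
      have h1 : PP p + n < ms ω := not_le.1 hω.2
      rw [le_abs]
      left
      linarith
    linarith
  · intro ω hω
    rw [mem_filter] at hω
    refine ⟨hω.2, ?_⟩
    have h1 : c0 ≤ X ω := (mem_filter.1 hω.1).2
    have h2 : X ω ≤ ((cols k ω).card : ℝ) * ((k : ℝ) / (k - 1)) ^ ms ω := by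
      rw [hX]; dsimp only
      rw [hY]; dsimp only
      rw [← Finset.sum_mul]
      refine mul_le_mul_of_nonneg_right ?_ (by positivity)
      rw [Finset.sum_boole]
      have : (GG.filter fun σ => Prp ω σ).card ≤ (cols k ω).card := by
        refine Finset.card_le_card fun σ hσ => ?_
        rw [mem_filter] at hσ
        exact mem_filter.2 ⟨mem_univ _, hσ.2⟩
      exact_mod_cast this
    have h3 : (1 - 1 / (k : ℝ)) * ((k : ℝ) / (k - 1)) = 1 := by field_simp
    have h4 : (1 - 1 / (k : ℝ)) ^ ms ω * c0 ≤ (cols k ω).card := by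
      have h5 : (0 : ℝ) ≤ (1 - 1 / (k : ℝ)) ^ ms ω := by
        apply pow_nonneg
        rw [sub_nonneg, div_le_one hk0]; linarith
      calc (1 - 1 / (k : ℝ)) ^ ms ω * c0
          ≤ (1 - 1 / (k : ℝ)) ^ ms ω * (((cols k ω).card : ℝ) * ((k : ℝ) / (k - 1)) ^ ms ω) :=
            mul_le_mul_of_nonneg_left (h1.trans h2) h5
        _ = ((cols k ω).card : ℝ) * ((1 - 1 / (k : ℝ)) * ((k : ℝ) / (k - 1))) ^ ms ω := by
            rw [mul_pow]; ring
        _ = (cols k ω).card := by rw [h3, one_pow, mul_one]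
    refine le_trans (mul_le_mul_of_nonneg_left ?_ ?_) h4
    · -- `k^n exp(-n^(3/4)) ≤ c0`
      have e4 : (1 : ℝ) / 4 = Real.exp (-Real.log 4) := by
        rw [Real.exp_neg, Real.exp_log (by norm_num)]; norm_num
      have : Real.exp (-(n : ℝ) ^ (1 - 3 * c / 10)) ≤ 1 / 4 * Real.exp (-((2 + Δ) * M)) := by
        rw [e4, ← Real.exp_add]
        apply Real.exp_le_exp.2
        have hl : Real.log 4 ≤ Real.log 16 := Real.log_le_log (by norm_num) (by norm_num)
        have hl0 : 0 ≤ Real.log 4 := Real.log_nonneg (by norm_num)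
        have g1 : C * M = Real.log 16 * M + (2 + Δ) * M + (2 + Δ) * M + 12 * M + Cl * M := by
          rw [hC]; ring
        have g2 : Real.log 16 ≤ Real.log 16 * M :=
          le_mul_of_one_le_right (hl0.trans hl) hM1
        have g3 : 0 ≤ (2 + Δ) * M := by positivity
        have g4 : 0 ≤ Cl * M := by positivity
        linarith
      rw [hc0]
      have hkn : 0 < (k : ℝ) ^ n := by positivity
      calc (k : ℝ) ^ n * Real.exp (-(n : ℝ) ^ (1 - 3 * c / 10))
          ≤ (k : ℝ) ^ n * (1 / 4 * Real.exp (-((2 + Δ) * M))) :=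
            mul_le_mul_of_nonneg_left this hkn.le
        _ = _ := by ring
    · apply pow_nonneg
      rw [sub_nonneg, div_le_one hk0]; linarith

end Run7.h932.RG
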