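import Pool.Agent.Run7.h932.RG.MF
import Pool.Agent.Run7.h932.RG.FIN
import Pool.Agent.Run7.h811.RG.CH
import Pool.Agent.Run7.h811.RG.DEG
import Pool.Agent.Run7.h811.RG.EXT
import Pool.Agent.Run7.h811.RG.NUM
import Pool.Agent.Run7.h811.RG.PZ
import Pool.Agent.Run7.h594.RG.BAL
import Pool.Agent.Run7.h594.RG.ISO
import Pool.Agent.Run7.h594.RG.SPA
import Pool.Agent.Run7.h925.RG.MOM
import Pool.Agent.Run7.h722.RG.SAMP
import Pool.Agent.Run7.h862.RG.ROW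
import Pool.Agent.Run7.h862.RG.TR

set_option autoImplicit false

namespace Run7.h932.RG

theorem aa : S_AA :=
  t_AA (t_MF Pool.Agent.Run7.h862.RG.t_ROW (Run7.h722.RG.t_COV Run7.h722.RG.t_SAMP)) Run7.h925.RG.t_TOT
    Pool.Agent.Run7.h594.RG.t_BAL Run7.h925.RG.t_MOM1 Run7.h925.RG.t_MOM2 Run7.h811.RG.t_PZ
    Run7.h811.RG.t_CH

theorem fin : S_FIN :=
  t_FIN aa Pool.Agent.Run7.h594.RG.t_ISO Pool.Agent.Run7.h594.RG.t_SPA Run7.h811.RG.t_DEG Run7.h811.RG.t_EXT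
    Run7.h811.RG.t_CH Pool.Agent.Run7.h862.RG.t_TR Run7.h811.RG.t_NUM Run7.h925.RG.t_TOT

end Run7.h932.RG
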