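import Pool.Agent.Run7.h932.RG.AA2

set_option autoImplicit false

namespace Run7.h932.RG

open Finset Classical Filter

theorem PP_le2 {n : ℕ} {p : Fin n → Fin n → ℝ} {Δ : ℝ} (h0 : ∀ x y, 0 ≤ p x y)
    (hs : ∀ x y, p x y = p y x) (hd : ∀ x, ∑ y, p x y ≤ Δ) : PP p ≤ Δ / 2 * n := by
  have h1 := half_sum (fun x y => if x = y then 0 else p x y)
    (fun x y => by
      by_cases e : x = y
      · rw [if_pos e, if_pos e.symm]
      · rw [if_neg e, if_neg (fun e' => e e'.symm), hs]) (fun x => by simp)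
  have h2 : (∑ y, ∑ x, if x < y then (if x = y then 0 else p x y) else 0) = PP p := by
    unfold PP
    refine Finset.sum_congr rfl fun y _ => Finset.sum_congr rfl fun x _ => ?_
    by_cases e : x < y
    · rw [if_pos e, if_pos e, if_neg e.ne]
    · rw [if_neg e, if_neg e]
  rw [h2] at h1
  have h3 : ∑ x, ∑ y, (if x = y then 0 else p x y) ≤ ∑ x : Fin n, Δ := by
    refine Finset.sum_le_sum fun x _ => ?_
    refine le_trans (Finset.sum_le_sum fun y _ => ?_) (hd x)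
    split_ifs
    · exact h0 x y
    · exact le_rfl
  rw [Finset.sum_const, Finset.card_univ, Fintype.card_fin, nsmul_eq_mul] at h3
  have h4 : 2 * PP p ≤ n * Δ := by rw [← h1]; exact h3
  linarith

theorem t_FIN2 (hAA : S_AA2) (hISO : S_ISO) (hSPA : S_SPA2) (hDEG : S_DEG2) (hEXT : S_EXT2)
    (hCH : S_CH2) (hTR : S_TR) (hNUM : S_NUM2) (hTOT : S_TOT) : S_FIN2 := by
  intro ε η c γ K hε hη hη1 hc hc1 hγ hK
  obtain ⟨r₀, hSPA⟩ := hSPA c γ (K + 1) hc hc1 hγ (by linarith)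
  obtain ⟨r, hr0, hr1⟩ : ∃ r : ℕ, r₀ ≤ r ∧ 1 ≤ r := ⟨max r₀ 1, le_max_left _ _, le_max_right _ _⟩
  obtain ⟨n₃, hSPA⟩ := hSPA r hr0
  obtain ⟨Δ₀, hNUM⟩ := hNUM ε η c r hε hη hη1 hc hc1
  refine ⟨Δ₀, fun Δ q hΔ₀ hq => ?_⟩
  obtain ⟨hΔ1, hk3, hnum1, n₁, hnum⟩ := hNUM Δ q hΔ₀ hq
  have hΔ : (0 : ℝ) < (Δ : ℝ) := by
    have : (1 : ℝ) ≤ (Δ : ℝ) := by exact_mod_cast hΔ1
    linarith
  set k : ℕ := q - r with hk
  have hkq : k + r = q := by omega
  have hk0 : 0 < k := by omega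
  obtain ⟨n₂, hAA⟩ := hAA c k Δ hc hc1 hk3 hΔ hnum1
  obtain ⟨c', hc', hCH⟩ := hCH Δ hΔ
  obtain ⟨n₄, hn₄, hev⟩ := evf2 K c' c hK hc' hc hc1
  refine ⟨max (max n₁ n₂) (max n₃ n₄), fun n hn p hp => ?_⟩
  have hn₁ : n₁ ≤ n := ((le_max_left _ _).trans (le_max_left _ _)).trans hn
  have hn₂ : n₂ ≤ n := ((le_max_right _ _).trans (le_max_left _ _)).trans hn
  have hn₃ : n₃ ≤ n := ((le_max_left _ _).trans (le_max_right _ _)).trans hn
  have hn4 : n₄ ≤ n := ((le_max_right _ _).trans (le_max_right _ _)).trans hn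
  have hn1 : 1 ≤ n := hn₄.trans hn4
  have hnR : (1 : ℝ) ≤ n := by exact_mod_cast hn1
  have hn0 : (0 : ℝ) < n := by linarith
  have hp1 : ∀ x y, p x y ≤ 1 := fun x y => (hp.small x y).trans
    (Real.rpow_le_one_of_one_le_of_nonpos hnR (by linarith))
  obtain ⟨mu0, mu1⟩ := hTOT n p hp.nonneg hp1
  obtain ⟨A, hA1, hA2⟩ := hAA n hn₂ p hp.nonneg hp.small hp.symm hp.deg
  set h : ℝ := 2 * (n : ℝ) ^ (1 - 3 * c / 20) with hh
  have hh0 : 0 ≤ h := by rw [hh]; positivity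
  -- the three bad sets
  set B1 : Finset (Fin n → Fin n → Bool) := univ.filter fun ω => ∃ U : Finset (Fin n),
    U.Nonempty ∧ (U.card : ℝ) ≤ 2 * (n : ℝ) ^ (1 - 3 * c / 20) ∧ r * U.card ≤ 2 * eU ω U with hB1
  set B2 : Finset (Fin n → Fin n → Bool) := univ.filter fun ω =>
    ∀ ω' ∈ A, h ≤ ((univ.filter fun y => ω y ≠ ω' y).card : ℝ) with hB2
  set B3 : Finset (Fin n → Fin n → Bool) := univ.filter fun ω =>
    (n : ℝ) ≤ |(ms ω : ℝ) - PP p| with hB3
  have m1 : ∑ ω ∈ B1, mu p ω ≤ (n : ℝ) ^ (-(K + 1)) :=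
    hSPA n hn₃ p hp.nonneg hp1 hp.symm hp.spot
  have m3 : ∑ ω ∈ B3, mu p ω ≤ 2 * Real.exp (-(c' * n)) :=
    hCH n p hn1 hp.nonneg hp1 hp.deg
  have m2 : ∑ ω ∈ B2, mu p ω ≤ Real.exp (-(3 * (n : ℝ) ^ (1 - 3 * c / 10))) := by
    have hν : ∀ y : Fin n, ∑ a : Fin n → Bool, ∏ x, wt (p x y) (a x) = 1 := by
      intro y
      have h1 := Finset.prod_univ_sum (fun _ : Fin n => (univ : Finset Bool))
        (fun x b => wt (p x y) b)
      rw [Fintype.piFinset_univ] at h1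
      rw [← h1]
      refine Finset.prod_eq_one fun x _ => ?_
      rw [Fintype.sum_bool]
      unfold wt
      simp
    have h2 := hISO n (Fin n → Bool) (fun y a => ∏ x, wt (p x y) (a x)) A h hn1
      (fun y a => Finset.prod_nonneg fun x _ => by
        unfold wt; split_ifs
        · exact hp.nonneg x y
        · linarith [hp1 x y]) hν hh0
    have h3 : (∑ ω ∈ A, mu p ω) * (∑ ω ∈ B2, mu p ω) ≤ Real.exp (-(h ^ 2 / n)) := by
      refine le_trans (le_of_eq ?_) h2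
      rw [hB2]
      unfold mu
      congr 1
      refine Finset.sum_congr ?_ fun _ _ => rfl
      ext ω
      simp only [mem_filter]
      constructor
      · rintro ⟨g1, g2⟩
        refine ⟨g1, fun ω' hω' => ?_⟩
        convert g2 ω' hω'
      · rintro ⟨g1, g2⟩
        refine ⟨g1, fun ω' hω' => ?_⟩
        convert g2 ω' hω'
    have h4 : h ^ 2 / n = 4 * (n : ℝ) ^ (1 - 3 * c / 10) := by
      rw [hh, mul_pow, ← Real.rpow_natCast ((n : ℝ) ^ (1 - 3 * c / 20)), ← Real.rpow_mul hn0.le]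
      rw [div_eq_iff hn0.ne', mul_assoc]
      nth_rw 3 [← Real.rpow_one (n : ℝ)]
      rw [← Real.rpow_add hn0]
      have e1 : (1 - 3 * c / 20) * ((2 : ℕ) : ℝ) = 1 - 3 * c / 10 + 1 := by push_cast; ring
      rw [e1]
      norm_num
    rw [h4] at h3
    have h5 : 0 ≤ ∑ ω ∈ B2, mu p ω := Finset.sum_nonneg fun ω _ => mu0 ω
    have h6 : Real.exp (-(n : ℝ) ^ (1 - 3 * c / 10)) * (∑ ω ∈ B2, mu p ω) ≤
        Real.exp (-(4 * (n : ℝ) ^ (1 - 3 * c / 10))) :=
      (mul_le_mul_of_nonneg_right hA1 h5).trans h3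
    calc ∑ ω ∈ B2, mu p ω
        = Real.exp ((n : ℝ) ^ (1 - 3 * c / 10)) *
            (Real.exp (-(n : ℝ) ^ (1 - 3 * c / 10)) * (∑ ω ∈ B2, mu p ω)) := by
          rw [← mul_assoc, ← Real.exp_add, add_neg_cancel, Real.exp_zero, one_mul]
      _ ≤ Real.exp ((n : ℝ) ^ (1 - 3 * c / 10)) * Real.exp (-(4 * (n : ℝ) ^ (1 - 3 * c / 10))) :=
          mul_le_mul_of_nonneg_left h6 (Real.exp_pos _).le
      _ = Real.exp (-(3 * (n : ℝ) ^ (1 - 3 * c / 10))) := by
          rw [← Real.exp_add]; congr 1; ring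
  -- the good configurations
  have hgood : ∀ ω, ω ∉ B1 → ω ∉ B2 → ω ∉ B3 →
      Bound (gr ω) q η := by
    intro ω g1 g2 g3
    have g1' : ∀ U : Finset (Fin n), U.Nonempty → (U.card : ℝ) ≤ 2 * (n : ℝ) ^ (1 - 3 * c / 20) →
        2 * eU ω U < r * U.card := by
      intro U hU hUc
      by_contra hcon
      exact g1 (mem_filter.2 ⟨mem_univ _, U, hU, hUc, not_lt.1 hcon⟩)
    have g2' : ∃ ω' ∈ A, ((univ.filter fun y => ω y ≠ ω' y).card : ℝ) < h := by
      by_contra hcon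
      push Not at hcon
      exact g2 (mem_filter.2 ⟨mem_univ _, hcon⟩)
    have g3' : |(ms ω : ℝ) - PP p| < n := by
      by_contra hcon
      exact g3 (mem_filter.2 ⟨mem_univ _, not_lt.1 hcon⟩)
    obtain ⟨ω', hω', hX⟩ := g2'
    set X : Finset (Fin n) := univ.filter fun y => ω y ≠ ω' y with hXdef
    have hcol := hDEG r n ω X hr1 (fun U hU hUn => g1' U hUn (by
      have : (U.card : ℝ) ≤ X.card := by exact_mod_cast Finset.card_le_card hU
      linarith))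
    have hext := hEXT r n k ω ω' X (fun y hy => by
      by_contra hne
      exact hy (mem_filter.2 ⟨mem_univ _, hne⟩)) hcol
    rw [hkq] at hext
    obtain ⟨hm', hc'⟩ := hA2 ω' hω'
    rw [abs_lt] at g3'
    have hPP := PP_le2 hp.nonneg hp.symm hp.deg
    have hmm : ms ω' ≤ ms ω + 2 * n := by
      have : (ms ω' : ℝ) ≤ ((ms ω + 2 * n : ℕ) : ℝ) := by push_cast; linarith [g3'.1]
      exact_mod_cast this
    have hnm := hnum n (ms ω) (ms ω') X.card hn₁ hmm (by linarith [g3'.2]) (by linarith)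
    have hfin : (1 - 1 / (q : ℝ)) ^ ms ω *
        ((1 - η) * q) ^ n * (k : ℝ) ^ X.card ≤
        ((cols q ω).card : ℝ) * (k : ℝ) ^ X.card := by
      refine hnm.trans (hc'.trans ?_)
      have : ((cols k ω').card : ℝ) ≤ (k : ℝ) ^ X.card * ((cols q ω).card : ℝ) := by
        exact_mod_cast hext
      linarith
    have hkp : (0 : ℝ) < (k : ℝ) ^ X.card := by
      have : (0 : ℝ) < k := by exact_mod_cast hk0
      positivity
    have hfin' := le_of_mul_le_mul_right hfin hkp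
    unfold Bound
    rw [← (hTR n).2.1 ω, ← (hTR n).1 q ω, Nat.card_eq_fintype_card, Fintype.card_fin]
    exact hfin'
  calc ∑ ω ∈ univ.filter fun ω => ¬ Bound (gr ω) q η, mu p ω
      ≤ ∑ ω ∈ (B1 ∪ B2) ∪ B3, mu p ω := by
        refine Finset.sum_le_sum_of_subset_of_nonneg ?_ (fun ω _ _ => mu0 ω)
        intro ω hω
        have hω' := (mem_filter.1 hω).2
        by_contra hcon
        rw [mem_union, mem_union] at hcon
        push Not at hcon
        exact hω' (hgood ω hcon.1.1 hcon.1.2 hcon.2)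
    _ ≤ (∑ ω ∈ B1, mu p ω + ∑ ω ∈ B2, mu p ω) + ∑ ω ∈ B3, mu p ω := by
        have u1 : ∀ S T : Finset (Fin n → Fin n → Bool),
            ∑ ω ∈ S ∪ T, mu p ω ≤ ∑ ω ∈ S, mu p ω + ∑ ω ∈ T, mu p ω := by
          intro S T
          rw [← Finset.sum_union_inter]
          exact le_add_of_nonneg_right (Finset.sum_nonneg fun ω _ => mu0 ω)
        exact (u1 _ _).trans (add_le_add (u1 _ _) le_rfl)
    _ ≤ _ := (add_le_add (add_le_add m1 m2) m3).trans (hev n hn4)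

end Run7.h932.RG
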