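import Pool.Agent.Run7.h932.RG.Asm
import Pool.Agent.Run7.h932.RG.FIN2
import Pool.Agent.Run7.h216.RG.DEG2
import Pool.Agent.Run7.h216.RG.EXT2
import Pool.Agent.Run7.h216.RG.HOST
import Pool.Agent.Run7.h305.RG.MODE
import Pool.Agent.Run7.h305.RG.SPA2
import Pool.Agent.Run7.h305.RG.TRIM
import Pool.Agent.Run7.h531.RG.BAL2
import Pool.Agent.Run7.h531.RG.CH2
import Pool.Agent.Run7.h531.RG.MOM12
import Pool.Agent.Run7.h83.RG.HD
import Pool.Agent.Run7.h300.RG.NUM2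

set_option autoImplicit false

namespace Run7.h932.RG

theorem mf : S_MF :=
  t_MF Pool.Agent.Run7.h862.RG.t_ROW (Run7.h722.RG.t_COV Run7.h722.RG.t_SAMP)

theorem fin2 : S_FIN2 :=
  t_FIN2 (t_AA2 mf Run7.h925.RG.t_TOT Run7.h531.RG.B.t_BAL2 Run7.h531.RG.M.t_MOM12
    Run7.h925.RG.t_MOM2 Run7.h811.RG.t_PZ Run7.h531.RG.C.t_CH2)
    Pool.Agent.Run7.h594.RG.t_ISO Run7.h305.RG.t_SPA2 Run7.h216.RG.t_DEG2 Run7.h216.RG.t_EXT2
    Run7.h531.RG.C.t_CH2 Pool.Agent.Run7.h862.RG.t_TR Run7.h300.RG.t_NUM2 Run7.h925.RG.t_TOT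

theorem host : S_HOST := Run7.h216.RG.t_HOST Run7.h305.RG.t_MODE
theorem trim : S_TRIM := Run7.h305.RG.t_TRIM
theorem hd : S_HD := Run7.h83.RG.t_HD
theorem tr : S_TR := Pool.Agent.Run7.h862.RG.t_TR

end Run7.h932.RG
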