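import Pool.Agent.Run7.h932.RG.Stm

set_option autoImplicit false

namespace Run7.h932.RG

open Finset Classical

namespace MF

variable {n k : ℕ} (w : Fin n → Fin n → ℝ)

/-- row sums -/
noncomputable def b (x : Fin n) : ℝ := ∑ y, w x y

noncomputable def H (τ : Fin n → Fin k) (x : Fin n) (j : Fin k) : ℝ :=
  ∑ y, if τ y = j then w x y else 0

noncomputable def F (τ : Fin n → Fin k) (x : Fin n) (j : Fin k) : ℝ := H w τ x j / b w x

noncomputable def K (τ : Fin n → Fin k) (x : Fin n) (j : Fin k) : ℝ := ∑ y, w x y * F w τ y j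

noncomputable def f (τ : Fin n → Fin k) (x : Fin n) (j : Fin k) : ℝ :=
  (H w τ x j + K w τ x j) / 2

noncomputable def v (τ : Fin n → Fin k) (x : Fin n) (j : Fin k) : ℝ := f w τ x j / b w x

noncomputable def S (τ : Fin n → Fin k) : ℝ := ∑ x, ∑ j, b w x * v w τ x j ^ 2

noncomputable def Q (τ : Fin n → Fin k) : ℝ := ∑ x, ∑ j, b w x * F w τ x j ^ 2

variable {w} (h0 : ∀ x y, 0 ≤ w x y) (hs : ∀ x y, w x y = w y x)

include h0

theorem b_nonneg (x : Fin n) : 0 ≤ b w x := Finset.sum_nonneg fun y _ => h0 x y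

theorem w_le_b (x y : Fin n) : w x y ≤ b w x :=
  Finset.single_le_sum (f := fun y => w x y) (fun y _ => h0 x y) (mem_univ y)

theorem w_zero {x : Fin n} (hx : b w x = 0) (y : Fin n) : w x y = 0 :=
  le_antisymm (hx ▸ w_le_b h0 x y) (h0 x y)

theorem H_nonneg (τ : Fin n → Fin k) (x : Fin n) (j : Fin k) : 0 ≤ H w τ x j :=
  Finset.sum_nonneg fun y _ => by split_ifs; exacts [h0 x y, le_rfl]

omit h0 in
theorem H_sum (τ : Fin n → Fin k) (x : Fin n) : ∑ j, H w τ x j = b w x := by
  unfold H b
  rw [Finset.sum_comm]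
  refine Finset.sum_congr rfl fun y _ => ?_
  rw [Finset.sum_ite_eq univ (τ y) (fun _ => w x y)]
  simp

theorem H_zero {x : Fin n} (hx : b w x = 0) (τ : Fin n → Fin k) (j : Fin k) : H w τ x j = 0 := by
  unfold H
  exact Finset.sum_eq_zero fun y _ => by split_ifs; exacts [w_zero h0 hx y, rfl]

theorem b_mul_F (τ : Fin n → Fin k) (x : Fin n) (j : Fin k) : b w x * F w τ x j = H w τ x j := by
  unfold F
  by_cases hx : b w x = 0
  · rw [H_zero h0 hx, hx]; simp
  · field_simp

theorem F_nonneg (τ : Fin n → Fin k) (x : Fin n) (j : Fin k) : 0 ≤ F w τ x j :=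
  div_nonneg (H_nonneg h0 τ x j) (b_nonneg h0 x)

theorem K_nonneg (τ : Fin n → Fin k) (x : Fin n) (j : Fin k) : 0 ≤ K w τ x j :=
  Finset.sum_nonneg fun y _ => mul_nonneg (h0 x y) (F_nonneg h0 τ y j)

include hs in
theorem K_sum (τ : Fin n → Fin k) (x : Fin n) : ∑ j, K w τ x j = b w x := by
  unfold K
  rw [Finset.sum_comm]
  unfold b
  refine Finset.sum_congr rfl fun y _ => ?_
  rw [← Finset.mul_sum]
  by_cases hy : b w y = 0
  · rw [hs x y, w_zero h0 hy x, zero_mul]
  · have : ∑ j, F w τ y j = 1 := by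
      unfold F
      rw [← Finset.sum_div, H_sum, div_self hy]
    rw [this, mul_one]

theorem K_zero {x : Fin n} (hx : b w x = 0) (τ : Fin n → Fin k) (j : Fin k) : K w τ x j = 0 := by
  unfold K
  exact Finset.sum_eq_zero fun y _ => by rw [w_zero h0 hx y, zero_mul]

theorem b_mul_v (τ : Fin n → Fin k) (x : Fin n) (j : Fin k) : b w x * v w τ x j = f w τ x j := by
  unfold v
  by_cases hx : b w x = 0
  · unfold f; rw [H_zero h0 hx, K_zero h0 hx, hx]; simp
  · field_simp

theorem v_nonneg (τ : Fin n → Fin k) (x : Fin n) (j : Fin k) : 0 ≤ v w τ x j :=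
  div_nonneg (div_nonneg (add_nonneg (H_nonneg h0 τ x j) (K_nonneg h0 τ x j)) (by norm_num))
    (b_nonneg h0 x)

include hs in
theorem f_sum (τ : Fin n → Fin k) (x : Fin n) : ∑ j, f w τ x j = b w x := by
  unfold f
  rw [← Finset.sum_div, Finset.sum_add_distrib, H_sum, K_sum h0 hs]
  ring

include hs in
theorem v_sum (τ : Fin n → Fin k) (x : Fin n) (hx : b w x ≠ 0) : ∑ j, v w τ x j = 1 := by
  unfold v
  rw [← Finset.sum_div, f_sum h0 hs, div_self hx]

include hs in
theorem v_le (τ : Fin n → Fin k) (x : Fin n) (j : Fin k) : v w τ x j ≤ 1 := by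
  by_cases hx : b w x = 0
  · unfold v; rw [hx]; simp
  · rw [← v_sum h0 hs τ x hx]
    exact Finset.single_le_sum (f := fun j => v w τ x j) (fun j _ => v_nonneg h0 τ x j) (mem_univ j)

omit h0 in
theorem energy (τ : Fin n → Fin k) :
    (∑ x, ∑ y, if τ x = τ y then w x y else 0) = ∑ x, H w τ x (τ x) := by
  refine Finset.sum_congr rfl fun x _ => ?_
  unfold H
  refine Finset.sum_congr rfl fun y _ => ?_
  by_cases h : τ x = τ y
  · rw [if_pos h, if_pos h.symm]
  · rw [if_neg h, if_neg (fun e => h e.symm)]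

include hs in
theorem KQ (τ : Fin n → Fin k) : ∑ x, K w τ x (τ x) = Q w τ := by
  unfold K Q
  rw [Finset.sum_comm]
  refine Finset.sum_congr rfl fun y _ => ?_
  have e : ∀ j, b w y * F w τ y j ^ 2 = ∑ x, (if τ x = j then w y x else 0) * F w τ y j := by
    intro j
    rw [← Finset.sum_mul]
    have := b_mul_F h0 τ y j
    unfold H at this
    rw [← this]; ring
  rw [Finset.sum_congr rfl fun j _ => e j, Finset.sum_comm]
  refine Finset.sum_congr rfl fun x _ => ?_
  have : ∀ j, (if τ x = j then w y x else 0) * F w τ y j =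
      if τ x = j then w y x * F w τ y j else 0 := by
    intro j; split_ifs <;> simp
  rw [Finset.sum_congr rfl fun j _ => this j,
    Finset.sum_ite_eq univ (τ x) (fun j => w y x * F w τ y j)]
  simp [hs x y]

omit h0 in
include hs in
/-- contraction -/
theorem contr (g : Fin n → Fin k → ℝ) :
    ∑ x, ∑ j, ∑ y, w x y * g y j = ∑ y, ∑ j, b w y * g y j := by
  have : ∀ x, ∑ j, ∑ y, w x y * g y j = ∑ y, ∑ j, w x y * g y j := fun x => Finset.sum_comm
  rw [Finset.sum_congr rfl fun x _ => this x, Finset.sum_comm]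
  refine Finset.sum_congr rfl fun y _ => ?_
  rw [Finset.sum_comm]
  refine Finset.sum_congr rfl fun j _ => ?_
  rw [← Finset.sum_mul]
  congr 1
  unfold b
  exact Finset.sum_congr rfl fun x _ => hs x y

include hs in
theorem S_le_Q (τ : Fin n → Fin k) : S w τ ≤ Q w τ := by
  -- `G = K / b`
  have hG : ∑ x, ∑ j, b w x * (K w τ x j / b w x) ^ 2 ≤ Q w τ := by
    calc ∑ x, ∑ j, b w x * (K w τ x j / b w x) ^ 2
        ≤ ∑ x, ∑ j, ∑ y, w x y * F w τ y j ^ 2 := by
          refine Finset.sum_le_sum fun x _ => Finset.sum_le_sum fun j _ => ?_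
          by_cases hx : b w x = 0
          · rw [hx, zero_mul]
            exact Finset.sum_nonneg fun y _ => mul_nonneg (h0 x y) (sq_nonneg _)
          · have hxp : 0 < b w x := lt_of_le_of_ne (b_nonneg h0 x) (Ne.symm hx)
            have hCS : (K w τ x j) ^ 2 ≤ b w x * ∑ y, w x y * F w τ y j ^ 2 := by
              have := Finset.sum_mul_sq_le_sq_mul_sq univ (fun y => √(w x y))
                (fun y => √(w x y) * F w τ y j)
              have e1 : ∑ y, √(w x y) * (√(w x y) * F w τ y j) = K w τ x j := by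
                unfold K
                refine Finset.sum_congr rfl fun y _ => ?_
                rw [← mul_assoc, Real.mul_self_sqrt (h0 x y)]
              have e2 : ∑ y, √(w x y) ^ 2 = b w x := by
                unfold b
                exact Finset.sum_congr rfl fun y _ => Real.sq_sqrt (h0 x y)
              have e3 : ∑ y, (√(w x y) * F w τ y j) ^ 2 = ∑ y, w x y * F w τ y j ^ 2 := by
                refine Finset.sum_congr rfl fun y _ => ?_
                rw [mul_pow, Real.sq_sqrt (h0 x y)]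
              rw [e1, e2, e3] at this
              exact this
            rw [div_pow, ← mul_div_assoc, div_le_iff₀ (by positivity)]
            calc b w x * K w τ x j ^ 2 ≤ b w x * (b w x * ∑ y, w x y * F w τ y j ^ 2) :=
                  mul_le_mul_of_nonneg_left hCS hxp.le
              _ = (∑ y, w x y * F w τ y j ^ 2) * b w x ^ 2 := by ring
      _ = Q w τ := contr hs (fun y j => F w τ y j ^ 2)
  have hv : ∀ x j, b w x * v w τ x j ^ 2 ≤
      1 / 2 * (b w x * F w τ x j ^ 2) + 1 / 2 * (b w x * (K w τ x j / b w x) ^ 2) := by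
    intro x j
    have e : v w τ x j = (F w τ x j + K w τ x j / b w x) / 2 := by
      unfold v f F
      ring
    rw [e]
    nlinarith [mul_nonneg (b_nonneg h0 x) (sq_nonneg (F w τ x j - K w τ x j / b w x))]
  calc S w τ ≤ ∑ x, ∑ j, (1 / 2 * (b w x * F w τ x j ^ 2) +
        1 / 2 * (b w x * (K w τ x j / b w x) ^ 2)) :=
        Finset.sum_le_sum fun x _ => Finset.sum_le_sum fun j _ => hv x j
    _ = 1 / 2 * Q w τ + 1 / 2 * ∑ x, ∑ j, b w x * (K w τ x j / b w x) ^ 2 := by
        unfold Q
        simp only [Finset.sum_add_distrib, ← Finset.mul_sum]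
    _ ≤ Q w τ := by linarith

include hs in
theorem f_diff (τ τ' : Fin n → Fin k) : ∑ x, ∑ j, |f w τ x j - f w τ' x j| ≤ dst w τ τ' := by
  have hK : ∑ x, ∑ j, |K w τ x j - K w τ' x j| ≤ dst w τ τ' := by
    calc ∑ x, ∑ j, |K w τ x j - K w τ' x j|
        ≤ ∑ x, ∑ j, ∑ y, w x y * |F w τ y j - F w τ' y j| := by
          refine Finset.sum_le_sum fun x _ => Finset.sum_le_sum fun j _ => ?_
          unfold K
          rw [← Finset.sum_sub_distrib]
          refine (Finset.abs_sum_le_sum_abs _ _).trans (Finset.sum_le_sum fun y _ => ?_)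
          rw [← mul_sub, abs_mul, abs_of_nonneg (h0 x y)]
      _ = ∑ y, ∑ j, b w y * |F w τ y j - F w τ' y j| :=
          contr hs (fun y j => |F w τ y j - F w τ' y j|)
      _ = dst w τ τ' := by
          unfold dst
          refine Finset.sum_congr rfl fun y _ => Finset.sum_congr rfl fun j _ => ?_
          have e1 := b_mul_F h0 τ y j
          have e2 := b_mul_F h0 τ' y j
          unfold H at e1 e2
          rw [← e1, ← e2, ← mul_sub, abs_mul, abs_of_nonneg (b_nonneg h0 y)]
  have hH : ∑ x, ∑ j, |H w τ x j - H w τ' x j| = dst w τ τ' := rfl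
  calc ∑ x, ∑ j, |f w τ x j - f w τ' x j|
      ≤ ∑ x, ∑ j, (1 / 2 * |H w τ x j - H w τ' x j| + 1 / 2 * |K w τ x j - K w τ' x j|) := by
        refine Finset.sum_le_sum fun x _ => Finset.sum_le_sum fun j _ => ?_
        have e : f w τ x j - f w τ' x j =
            1 / 2 * (H w τ x j - H w τ' x j) + 1 / 2 * (K w τ x j - K w τ' x j) := by
          unfold f; ring
        rw [e]
        refine (abs_add_le _ _).trans (le_of_eq ?_)
        rw [abs_mul, abs_mul]
        norm_num
    _ = 1 / 2 * ∑ x, ∑ j, |H w τ x j - H w τ' x j| +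
          1 / 2 * ∑ x, ∑ j, |K w τ x j - K w τ' x j| := by
        simp only [Finset.sum_add_distrib, ← Finset.mul_sum]
    _ ≤ dst w τ τ' := by rw [hH]; linarith

include hs in
theorem S_diff (τ τ' : Fin n → Fin k) : S w τ' - S w τ ≤ 2 * dst w τ τ' := by
  calc S w τ' - S w τ = ∑ x, ∑ j, (b w x * v w τ' x j ^ 2 - b w x * v w τ x j ^ 2) := by
        unfold S
        simp only [Finset.sum_sub_distrib]
    _ ≤ ∑ x, ∑ j, 2 * |f w τ x j - f w τ' x j| := by
        refine Finset.sum_le_sum fun x _ => Finset.sum_le_sum fun j _ => ?_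
        have e1 := b_mul_v h0 τ x j
        have e2 := b_mul_v h0 τ' x j
        rw [← e1, ← e2, ← mul_sub, ← mul_sub, abs_mul, abs_of_nonneg (b_nonneg h0 x)]
        have hb := b_nonneg h0 x
        have a0 := v_nonneg h0 τ x j
        have a1 := v_le h0 hs τ x j
        have b0 := v_nonneg h0 τ' x j
        have b1 := v_le h0 hs τ' x j
        have key : v w τ' x j ^ 2 - v w τ x j ^ 2 ≤ 2 * |v w τ x j - v w τ' x j| := by
          have : v w τ' x j ^ 2 - v w τ x j ^ 2 =
              (v w τ' x j - v w τ x j) * (v w τ' x j + v w τ x j) := by ring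
          rw [this]
          calc (v w τ' x j - v w τ x j) * (v w τ' x j + v w τ x j)
              ≤ |v w τ' x j - v w τ x j| * (v w τ' x j + v w τ x j) :=
                mul_le_mul_of_nonneg_right (le_abs_self _) (by linarith)
            _ ≤ |v w τ' x j - v w τ x j| * 2 :=
                mul_le_mul_of_nonneg_left (by linarith) (abs_nonneg _)
            _ = 2 * |v w τ x j - v w τ' x j| := by rw [abs_sub_comm]; ring
        nlinarith [mul_le_mul_of_nonneg_left key hb]
    _ = 2 * ∑ x, ∑ j, |f w τ x j - f w τ' x j| := by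
        simp only [← Finset.mul_sum]
    _ ≤ 2 * dst w τ τ' := by linarith [f_diff h0 hs τ τ']

include hs in
/-- the linearised energy -/
theorem lin (τ τ' : Fin n → Fin k) :
    1 / 2 * (∑ x, ∑ y, if τ x = τ y then w x y else 0) ≤
      ∑ x, f w τ' x (τ x) - 1 / 2 * S w τ' + 2 * dst w τ τ' := by
  have h1 : 1 / 2 * (∑ x, ∑ y, if τ x = τ y then w x y else 0) =
      ∑ x, f w τ x (τ x) - 1 / 2 * Q w τ := by
    rw [energy, ← KQ h0 hs]
    unfold f
    rw [← Finset.sum_div, Finset.sum_add_distrib]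
    ring
  have h2 : ∑ x, f w τ x (τ x) ≤ ∑ x, f w τ' x (τ x) + dst w τ τ' := by
    have : ∑ x, f w τ x (τ x) - ∑ x, f w τ' x (τ x) ≤ ∑ x, ∑ j, |f w τ x j - f w τ' x j| := by
      rw [← Finset.sum_sub_distrib]
      refine Finset.sum_le_sum fun x _ => ?_
      exact (le_abs_self _).trans (Finset.single_le_sum
        (f := fun j => |f w τ x j - f w τ' x j|) (fun j _ => abs_nonneg _) (mem_univ (τ x)))
    linarith [f_diff h0 hs τ τ']
  have h3 := S_le_Q h0 hs τ
  have h4 := S_diff h0 hs τ τ'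
  rw [h1]
  linarith

include hs in
/-- one cell -/
theorem cell (hROW : S_ROW) (hk : 3000 ≤ k) (hb : ∀ x, ∑ y, w x y ≤ 2 * Real.log k - 2)
    (τ' : Fin n → Fin k) :
    ∑ τ : Fin n → Fin k, Real.exp (∑ x, f w τ' x (τ x) - 1 / 2 * S w τ') ≤
      (k : ℝ) ^ n * Real.exp ((∑ x, ∑ y, w x y) / (2 * k)) := by
  have e1 : ∑ τ : Fin n → Fin k, Real.exp (∑ x, f w τ' x (τ x) - 1 / 2 * S w τ') =
      (∏ x, ∑ j, Real.exp (f w τ' x j)) * Real.exp (-(1 / 2 * S w τ')) := by
    rw [Finset.prod_univ_sum, Fintype.piFinset_univ, Finset.sum_mul]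
    refine Finset.sum_congr rfl fun τ _ => ?_
    rw [← Real.exp_sum, ← Real.exp_add]
    congr 1
  have hk0 : (0 : ℝ) < k := by
    have : 0 < k := by omega
    exact_mod_cast this
  have e2 : ∀ x, ∑ j, Real.exp (f w τ' x j) ≤
      k * Real.exp (b w x / (2 * k) + 1 / 2 * ∑ j, b w x * v w τ' x j ^ 2) := by
    intro x
    by_cases hx : b w x = 0
    · have : ∀ j, f w τ' x j = 0 := by
        intro j; rw [← b_mul_v h0, hx, zero_mul]
      simp only [this, hx, Real.exp_zero, zero_mul, Finset.sum_const_zero, mul_zero, zero_div,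
        add_zero, mul_one, Finset.sum_const, Finset.card_univ, Fintype.card_fin, nsmul_eq_mul]
      exact le_rfl
    · have h := hROW k (b w x) (v w τ' x) hk (b_nonneg h0 x) (hb x) (v_nonneg h0 τ' x)
        (v_sum h0 hs τ' x hx)
      have e3 : ∀ j, b w x * v w τ' x j = f w τ' x j := fun j => b_mul_v h0 τ' x j
      simp only [e3] at h
      refine h.trans (le_of_eq ?_)
      rw [← Finset.mul_sum]
      congr 2
      ring
  rw [e1]
  calc (∏ x, ∑ j, Real.exp (f w τ' x j)) * Real.exp (-(1 / 2 * S w τ'))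
      ≤ (∏ x : Fin n, (k * Real.exp (b w x / (2 * k) + 1 / 2 * ∑ j, b w x * v w τ' x j ^ 2))) *
          Real.exp (-(1 / 2 * S w τ')) := by
        refine mul_le_mul_of_nonneg_right ?_ (Real.exp_pos _).le
        exact Finset.prod_le_prod (fun x _ => Finset.sum_nonneg fun j _ => (Real.exp_pos _).le)
          fun x _ => e2 x
    _ = (k : ℝ) ^ n * Real.exp ((∑ x, ∑ y, w x y) / (2 * k)) := by
        rw [Finset.prod_mul_distrib, Finset.prod_const, Finset.card_univ, Fintype.card_fin,
          ← Real.exp_sum, mul_assoc, ← Real.exp_add]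
        congr 2
        rw [Finset.sum_add_distrib, ← Finset.mul_sum, ← Finset.sum_div]
        unfold S b
        ring

end MF

/-- **The mean field bound.** -/
theorem t_MF (hROW : S_ROW) (hCOV : S_COV) : S_MF := by
  intro n k N w P hn hk hN hP h0 hs hwP hb
  have hkR : (3000 : ℝ) ≤ k := by exact_mod_cast hk
  have hlog : 2 < Real.log k := by
    have h1 : Real.exp 2 < k := by
      have : Real.exp 2 = Real.exp 1 * Real.exp 1 := by rw [← Real.exp_add]; norm_num
      have h2 := Real.exp_one_lt_d9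
      have h3 := Real.exp_pos 1
      rw [this]
      nlinarith
    have := Real.log_lt_log (Real.exp_pos 2) h1
    rwa [Real.log_exp] at this
  set B : ℝ := 2 * Real.log k - 2 with hB
  have hB0 : 0 < B := by rw [hB]; linarith
  obtain ⟨R, hR, hcov⟩ := hCOV n k N w P B hn (by omega) hN hP hB0 h0 hwP hb
  set E : ℝ := 4 * (n * k * √(N * (P * B))) with hE
  set E2 : ℝ := 8 * (n * k * √(N * (P * (2 * Real.log k)))) with hE2
  have hEE : 2 * E ≤ E2 := by
    have : √(N * (P * B)) ≤ √(N * (P * (2 * Real.log k))) := by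
      apply Real.sqrt_le_sqrt
      have h1 : B ≤ 2 * Real.log k := by rw [hB]; linarith
      gcongr
    rw [hE, hE2]
    have h2 : (0 : ℝ) ≤ n * k := by positivity
    nlinarith [mul_le_mul_of_nonneg_left this h2]
  choose c hcR hcd using hcov
  calc ∑ τ : Fin n → Fin k, Real.exp (1 / 2 * ∑ x, ∑ y, if τ x = τ y then w x y else 0)
      ≤ ∑ τ : Fin n → Fin k, ∑ τ' ∈ R,
          Real.exp E2 * Real.exp (∑ x, MF.f w τ' x (τ x) - 1 / 2 * MF.S w τ') := by
        refine Finset.sum_le_sum fun τ _ => ?_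
        refine le_trans ?_ (Finset.single_le_sum
          (f := fun τ' => Real.exp E2 * Real.exp (∑ x, MF.f w τ' x (τ x) - 1 / 2 * MF.S w τ'))
          (fun τ' _ => by positivity) (hcR τ))
        rw [← Real.exp_add]
        apply Real.exp_le_exp.2
        have h1 := MF.lin h0 hs τ (c τ)
        have h2 := hcd τ
        linarith
    _ = Real.exp E2 * ∑ τ' ∈ R, ∑ τ : Fin n → Fin k,
          Real.exp (∑ x, MF.f w τ' x (τ x) - 1 / 2 * MF.S w τ') := by
        rw [Finset.sum_comm, Finset.mul_sum]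
        exact Finset.sum_congr rfl fun τ' _ => by rw [Finset.mul_sum]
    _ ≤ Real.exp E2 * ∑ τ' ∈ R, ((k : ℝ) ^ n * Real.exp ((∑ x, ∑ y, w x y) / (2 * k))) := by
        refine mul_le_mul_of_nonneg_left (Finset.sum_le_sum fun τ' _ => ?_) (Real.exp_pos _).le
        exact MF.cell h0 hs hROW hk hb τ'
    _ = (R.card : ℝ) * Real.exp E2 *
          ((k : ℝ) ^ n * Real.exp ((∑ x, ∑ y, w x y) / (2 * k))) := by
        rw [Finset.sum_const, nsmul_eq_mul]; ring
    _ ≤ ((n * k + 1 : ℕ) : ℝ) ^ (2 * n / N) * Real.exp E2 *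
          ((k : ℝ) ^ n * Real.exp ((∑ x, ∑ y, w x y) / (2 * k))) := by
        gcongr

end Run7.h932.RG
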