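import Mathlib

set_option autoImplicit false

/-!
# Project RG (MP_ef9bc2_co): counting the colourings of random graphs with independent edges and
arbitrary edge probabilities `p x y ≤ n^(-9/10)`. Definitions and statements of the pieces.
-/

namespace Run7.h932.RG

open Finset Classical

/-- The matrix `p` of edge probabilities: symmetric, entries between `0` and `n^(-9/10)`, row sums
at most `Δ`. -/
structure Hyp {n : ℕ} (p : Fin n → Fin n → ℝ) (Δ : ℝ) : Prop where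
  nonneg : ∀ x y, 0 ≤ p x y
  small : ∀ x y, p x y ≤ (n : ℝ) ^ (-(9 / 10) : ℝ)
  symm : ∀ x y, p x y = p y x
  deg : ∀ x, ∑ y, p x y ≤ Δ

/-- Weight of one coordinate. -/
noncomputable def wt (r : ℝ) (b : Bool) : ℝ := if b then r else 1 - r

/-- Weight of a configuration `ω`. The coordinate `ω y` holds the pairs `x, y`; only the entries
`ω y x` with `x < y` are used for the graph (the other ones have total weight one). -/
noncomputable def mu {n : ℕ} (p : Fin n → Fin n → ℝ) (ω : Fin n → Fin n → Bool) : ℝ :=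
  ∏ y, ∏ x, wt (p x y) (ω y x)

/-- The graph of a configuration: for `x < y` the pair `x, y` is an edge if `ω y x` is true. -/
def gr {n : ℕ} (ω : Fin n → Fin n → Bool) : SimpleGraph (Fin n) :=
  SimpleGraph.fromRel fun x y => x < y ∧ ω y x = true

/-- `σ` is a proper colouring of `gr ω`. -/
def Prp {n k : ℕ} (ω : Fin n → Fin n → Bool) (σ : Fin n → Fin k) : Prop :=
  ∀ x y, x < y → ω y x = true → σ x ≠ σ y

/-- The proper colourings of `gr ω` with `k` colours. -/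
noncomputable def cols {n : ℕ} (k : ℕ) (ω : Fin n → Fin n → Bool) : Finset (Fin n → Fin k) :=
  univ.filter fun σ => Prp ω σ

/-- The number of the edges of `gr ω`. -/
noncomputable def ms {n : ℕ} (ω : Fin n → Fin n → Bool) : ℕ :=
  (univ.filter fun z : Fin n × Fin n => z.1 < z.2 ∧ ω z.2 z.1 = true).card

/-- The number of the edges of `gr ω` inside `U`. -/
noncomputable def eU {n : ℕ} (ω : Fin n → Fin n → Bool) (U : Finset (Fin n)) : ℕ :=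
  (univ.filter fun z : Fin n × Fin n => z.1 ∈ U ∧ z.2 ∈ U ∧ z.1 < z.2 ∧ ω z.2 z.1 = true).card

/-- The expected number of the edges. -/
noncomputable def PP {n : ℕ} (p : Fin n → Fin n → ℝ) : ℝ :=
  ∑ y, ∑ x, if x < y then p x y else 0

/-- The expected number of the edges with both ends of the same colour. -/
noncomputable def Ps {n k : ℕ} (p : Fin n → Fin n → ℝ) (σ : Fin n → Fin k) : ℝ :=
  ∑ y, ∑ x, if x < y ∧ σ x = σ y then p x y else 0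

/-- The expected number of the edges with both ends of the same colour for `σ` and `τ`. -/
noncomputable def Pst {n k : ℕ} (p : Fin n → Fin n → ℝ) (σ τ : Fin n → Fin k) : ℝ :=
  ∑ y, ∑ x, if x < y ∧ σ x = σ y ∧ τ x = τ y then p x y else 0

/-- Balanced colourings. -/
def Good {n k : ℕ} (p : Fin n → Fin n → ℝ) (σ : Fin n → Fin k) : Prop :=
  (∀ x, (∑ y, if x ≠ y ∧ σ x = σ y then p x y else 0) ≤ (∑ y, p x y) / k + 1 / 2) ∧
    |Ps p σ - PP p / k| ≤ (n : ℝ) ^ (1 / 2 : ℝ)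

/-- The distance of the fields of two colourings. -/
noncomputable def dst {n k : ℕ} (w : Fin n → Fin n → ℝ) (τ τ' : Fin n → Fin k) : ℝ :=
  ∑ x, ∑ j, |(∑ y, if τ y = j then w x y else 0) - ∑ y, if τ' y = j then w x y else 0|

/-- Weight of a graph: the probability of the graph if the pairs `x < y` are edges independently
with probability `p x y`. -/
noncomputable def WG {n : ℕ} (p : Fin n → Fin n → ℝ) (G : SimpleGraph (Fin n)) : ℝ :=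
  ∏ y, ∏ x, if x < y then (if G.Adj x y then p x y else 1 - p x y) else 1

/-- The inequality of Q1. -/
def Bound {V : Type} (G : SimpleGraph V) (q : ℕ) (η : ℝ) : Prop :=
  (1 - 1 / (q : ℝ)) ^ Nat.card G.edgeSet * ((1 - η) * q) ^ Nat.card V ≤
    (Nat.card (G.Coloring (Fin q)) : ℝ)

/-! ### analytic leaves -/

/-- ROW: one row. Hint: put `v j = 1/k + δ j`; `∑ exp (b v j) = exp (b/k) ∑ exp (b δ j)`,
`∑ δ j = 0`, `∑ v j ^ 2 = 1/k + ∑ δ j ^ 2`, so it suffices that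
`(1/k) ∑ (exp (b δ j) - 1 - b δ j) ≤ exp (b/2 ∑ δ j ^ 2) - 1`, and this follows from
`(1/k) (exp (b δ) - 1 - b δ) ≤ exp (b δ ^ 2 / 2) - 1` for `-1/k ≤ δ ≤ 1`
(case `b δ ≤ log k - log b`: `exp u - 1 - u ≤ u^2/2 * exp (max u 0)`;
case `b δ > log k - log b`: `δ ^ 2 / 2 ≥ δ - 1/2` and `b ≤ 2 log k - 2`). -/
def S_ROW : Prop := ∀ (k : ℕ) (b : ℝ) (v : Fin k → ℝ), 3000 ≤ k → 0 ≤ b →
  b ≤ 2 * Real.log k - 2 → (∀ j, 0 ≤ v j) → ∑ j, v j = 1 →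
  ∑ j, Real.exp (b * v j) ≤ k * Real.exp (b / (2 * k) + b / 2 * ∑ j, v j ^ 2)

/-- SAMP: sampling. Choose every `y` with probability `1/N`; the expected size is `|V|/N`, and
the expected error of each sum is at most the square root of its variance `(N - 1) ∑ a i y ^ 2`. -/
def S_SAMP : Prop := ∀ (V I : Type) [Fintype V] [Fintype I] (N : ℕ) (a : I → V → ℝ) (E : ℝ),
  1 ≤ N → 0 < E → ∑ i, √(N * ∑ y, a i y ^ 2) ≤ E →
  ∃ Y : Finset V, Y.card * N ≤ 2 * Fintype.card V ∧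
    ∑ i, |∑ y, a i y - N * ∑ y ∈ Y, a i y| ≤ 2 * E

/-- COV: covering the colourings by few cells of nearly constant fields. -/
def S_COV : Prop := ∀ (n k N : ℕ) (w : Fin n → Fin n → ℝ) (P B : ℝ), 1 ≤ n → 1 ≤ k → 1 ≤ N →
  0 < P → 0 < B → (∀ x y, 0 ≤ w x y) → (∀ x y, w x y ≤ P) → (∀ x, ∑ y, w x y ≤ B) →
  ∃ R : Finset (Fin n → Fin k), (R.card : ℝ) ≤ ((n * k + 1 : ℕ) : ℝ) ^ (2 * n / N) ∧
    ∀ τ, ∃ τ' ∈ R, dst w τ τ' ≤ 4 * (n * k * √(N * (P * B)))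

/-- MF: the mean field bound. -/
def S_MF : Prop := ∀ (n k N : ℕ) (w : Fin n → Fin n → ℝ) (P : ℝ), 1 ≤ n → 3000 ≤ k → 1 ≤ N →
  0 < P → (∀ x y, 0 ≤ w x y) → (∀ x y, w x y = w y x) → (∀ x y, w x y ≤ P) →
  (∀ x, ∑ y, w x y ≤ 2 * Real.log k - 2) →
  ∑ τ : Fin n → Fin k, Real.exp (1 / 2 * ∑ x, ∑ y, if τ x = τ y then w x y else 0) ≤
    ((n * k + 1 : ℕ) : ℝ) ^ (2 * n / N) *
      Real.exp (8 * (n * k * √(N * (P * (2 * Real.log k))))) *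
      ((k : ℝ) ^ n * Real.exp ((∑ x, ∑ y, w x y) / (2 * k)))

/-! ### random colourings and random graphs -/

/-- TOT: `mu` is a probability. -/
def S_TOT : Prop := ∀ (n : ℕ) (p : Fin n → Fin n → ℝ), (∀ x y, 0 ≤ p x y) → (∀ x y, p x y ≤ 1) →
  (∀ ω, 0 ≤ mu p ω) ∧ ∑ ω, mu p ω = 1

/-- BAL: at least half of all the colourings are balanced. Hint: Chebyshev for `Ps`
(the events `σ x = σ y`, `x < y`, are pairwise independent), exponential moments (factor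
`n^(9/10)`) for the other condition. -/
def S_BAL : Prop := ∀ (k : ℕ) (Δ : ℝ), 2 ≤ k → 0 < Δ → ∃ n₀ : ℕ, ∀ n : ℕ, n₀ ≤ n →
  ∀ p : Fin n → Fin n → ℝ, Hyp p Δ →
    (k : ℝ) ^ n ≤ 2 * ((univ.filter fun σ : Fin n → Fin k => Good p σ).card : ℝ)

/-- MOM1: the first moment. The sum is the product over the pairs `x < y` of `1 - p x y`
(if `σ x = σ y`) or `1 + p x y / (k - 1)` (if not). -/
def S_MOM1 : Prop := ∀ (n k : ℕ) (Δ : ℝ) (p : Fin n → Fin n → ℝ) (σ : Fin n → Fin k), 3 ≤ n →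
  2 ≤ k → Hyp p Δ →
  Real.exp ((PP p - k * Ps p σ) / (k - 1) - (n : ℝ) ^ (1 / 10 : ℝ) * Δ) ≤
    ∑ ω, mu p ω * ((if Prp ω σ then 1 else 0) * ((k : ℝ) / (k - 1)) ^ ms ω)

/-- MOM2: the second moment for one pair. The sum is the product over the pairs `x < y` of
`1 - p x y` (if `σ x = σ y` or `τ x = τ y`) or `1 + (a - 1) p x y` (if not), where
`a = (k / (k - 1)) ^ 2`. -/
def S_MOM2 : Prop := ∀ (n k : ℕ) (p : Fin n → Fin n → ℝ) (σ τ : Fin n → Fin k), 2 ≤ k →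
  (∀ x y, 0 ≤ p x y) → (∀ x y, p x y ≤ 1) →
  ∑ ω, mu p ω * (((if Prp ω σ then 1 else 0) * ((k : ℝ) / (k - 1)) ^ ms ω) *
      ((if Prp ω τ then 1 else 0) * ((k : ℝ) / (k - 1)) ^ ms ω)) ≤
    Real.exp (((k : ℝ) / (k - 1)) ^ 2 * Pst p σ τ - ((k : ℝ) / (k - 1)) ^ 2 * (Ps p σ + Ps p τ) +
      (((k : ℝ) / (k - 1)) ^ 2 - 1) * PP p)

/-- PZ: the inequality of Paley and Zygmund. -/
def S_PZ : Prop := ∀ (Ω : Type) [Fintype Ω] (m X : Ω → ℝ) (c : ℝ), (∀ ω, 0 ≤ m ω) →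
  ∑ ω, m ω = 1 → (∀ ω, 0 ≤ X ω) → 2 * c ≤ ∑ ω, m ω * X ω → 0 ≤ c →
  (∑ ω, m ω * X ω) ^ 2 ≤ 4 * (∑ ω, m ω * X ω ^ 2) * ∑ ω ∈ univ.filter fun ω => c ≤ X ω, m ω

/-- CH: the number of the edges is concentrated. -/
def S_CH : Prop := ∀ Δ : ℝ, 0 < Δ → ∃ c : ℝ, 0 < c ∧ ∀ (n : ℕ) (p : Fin n → Fin n → ℝ), 1 ≤ n →
  Hyp p Δ → ∑ ω ∈ univ.filter fun ω => (n : ℝ) ≤ |(ms ω : ℝ) - PP p|, mu p ω ≤
    2 * Real.exp (-(c * n))

/-- AA: with probability not too small there are many colourings. -/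
def S_AA : Prop := ∀ (k : ℕ) (Δ : ℝ), 3000 ≤ k → 0 < Δ →
  ((k : ℝ) / (k - 1)) ^ 2 * (Δ / k + 1 / 2) ≤ 2 * Real.log k - 2 →
  ∃ n₀ : ℕ, ∀ n : ℕ, n₀ ≤ n → ∀ p : Fin n → Fin n → ℝ, Hyp p Δ →
    ∃ A : Finset (Fin n → Fin n → Bool),
      Real.exp (-(n : ℝ) ^ (3 / 4 : ℝ)) ≤ ∑ ω ∈ A, mu p ω ∧
      ∀ ω ∈ A, (ms ω : ℝ) ≤ PP p + n ∧
        (1 - 1 / (k : ℝ)) ^ ms ω * ((k : ℝ) ^ n * Real.exp (-(n : ℝ) ^ (3 / 4 : ℝ))) ≤
          ((cols k ω).card : ℝ)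

/-- ISO: concentration in product spaces for the Hamming distance. Hint: induction on `n` for
`E exp (t d(ω, A)) ≤ ((2 + e^t + e^(-t)) / 4) ^ n / P(A)`; step: for a random variable `u` in
`[0, 1]` one has `E min (1/u, e^t) * E u ≤ (2 + e^t + e^(-t)) / 4`. Then
`(2 + e^t + e^(-t)) / 4 = cosh (t/2) ^ 2 ≤ exp (t^2/4)`, `t = 2 h / n`. -/
def S_ISO : Prop := ∀ (n : ℕ) (α : Type) [Fintype α] (ν : Fin n → α → ℝ) (A : Finset (Fin n → α))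
  (h : ℝ), 1 ≤ n → (∀ y a, 0 ≤ ν y a) → (∀ y, ∑ a, ν y a = 1) → 0 ≤ h →
  (∑ ω ∈ A, ∏ y, ν y (ω y)) *
    (∑ ω ∈ univ.filter fun ω : Fin n → α =>
      ∀ ω' ∈ A, h ≤ ((univ.filter fun y => ω y ≠ ω' y).card : ℝ), ∏ y, ν y (ω y)) ≤
    Real.exp (-(h ^ 2 / n))

/-- SPA: small sets span few edges. Hint: union bound; for `|U| = s` the number of the sets `U` is
at most `(e n / s) ^ s`, the number of the sets of `10 s` pairs inside `U` is at most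
`(e s / 20) ^ (10 s)`, each is present with probability at most `n ^ (-9 s)`. -/
def S_SPA : Prop := ∃ n₀ : ℕ, ∀ n : ℕ, n₀ ≤ n → ∀ (p : Fin n → Fin n → ℝ) (Δ : ℝ), Hyp p Δ →
  ∑ ω ∈ univ.filter fun ω => ∃ U : Finset (Fin n), U.Nonempty ∧
      (U.card : ℝ) ≤ 2 * (n : ℝ) ^ (7 / 8 : ℝ) ∧ 10 * U.card ≤ eU ω U, mu p ω ≤
    (n : ℝ) ^ (-(1 / 10) : ℝ)

/-- DEG: sets all of whose parts span few edges can be coloured with 20 colours. -/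
def S_DEG : Prop := ∀ (n : ℕ) (ω : Fin n → Fin n → Bool) (X : Finset (Fin n)),
  (∀ U ⊆ X, U.Nonempty → eU ω U < 10 * U.card) →
  ∃ c : Fin n → Fin 20, ∀ x ∈ X, ∀ y ∈ X, x < y → ω y x = true → c x ≠ c y

/-- EXT: repairing the colourings on `X` with 20 more colours. -/
def S_EXT : Prop := ∀ (n k : ℕ) (ω ω' : Fin n → Fin n → Bool) (X : Finset (Fin n)),
  (∀ y, y ∉ X → ω y = ω' y) →
  (∃ c : Fin n → Fin 20, ∀ x ∈ X, ∀ y ∈ X, x < y → ω y x = true → c x ≠ c y) →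
  (cols k ω').card ≤ k ^ X.card * (cols (k + 20) ω).card

/-- TR: translation to graphs. -/
def S_TR : Prop := ∀ (n : ℕ),
  (∀ (k : ℕ) (ω : Fin n → Fin n → Bool), (cols k ω).card = Nat.card ((gr ω).Coloring (Fin k))) ∧
  (∀ ω : Fin n → Fin n → Bool, ms ω = Nat.card (gr ω).edgeSet) ∧
  (∀ (p : Fin n → Fin n → ℝ) (f : SimpleGraph (Fin n) → ℝ),
    ∑ ω, mu p ω * f (gr ω) = ∑ G, WG p G * f G)

/-- NUM: numbers. -/
def S_NUM : Prop := ∀ (q : ℕ) (Δ : ℝ), 4000 ≤ q → 0 < Δ → Δ ≤ 2 * q * Real.log q - 3 * q →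
  ((((q - 20 : ℕ) : ℝ) / (((q - 20 : ℕ) : ℝ) - 1)) ^ 2 * (Δ / ((q - 20 : ℕ) : ℝ) + 1 / 2) ≤
    2 * Real.log ((q - 20 : ℕ) : ℝ) - 2) ∧
  ∃ n₀ : ℕ, ∀ n m m' x : ℕ, n₀ ≤ n → m' ≤ m + 2 * n → (m : ℝ) ≤ (Δ / 2 + 1) * n →
    (x : ℝ) ≤ 2 * (n : ℝ) ^ (7 / 8 : ℝ) →
    (1 - 1 / (q : ℝ)) ^ m * ((1 - (40 / q + 12 * Δ / (q : ℝ) ^ 2)) * q) ^ n *
        ((q - 20 : ℕ) : ℝ) ^ x ≤
      (1 - 1 / ((q - 20 : ℕ) : ℝ)) ^ m' *
        (((q - 20 : ℕ) : ℝ) ^ n * Real.exp (-(n : ℝ) ^ (3 / 4 : ℝ)))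

/-- FIN: the main count. -/
def S_FIN : Prop := ∀ (q : ℕ) (Δ : ℝ), 4000 ≤ q → 0 < Δ → Δ ≤ 2 * q * Real.log q - 3 * q →
  ∃ n₀ : ℕ, ∀ n : ℕ, n₀ ≤ n → ∀ p : Fin n → Fin n → ℝ, Hyp p Δ →
    ∑ ω ∈ univ.filter fun ω => ¬ Bound (gr ω) q (40 / q + 12 * Δ / (q : ℝ) ^ 2), mu p ω ≤
      (n : ℝ) ^ (-(1 / 20) : ℝ)

end Run7.h932.RG
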